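import Pool.Agent.Q171.OF.Perm

/-!
# The groups in the statement
-/

set_option autoImplicit false

namespace Q171.OF

open Monoid
open Pool.Agent.Y110.FJ (ClosedE)
open Q171.NF (ToConj)

section

variable {ι : Type} (G : ι → Type) [∀ i, Group (G i)]

/-- the free product of a family of groups -/
def FreeP : Type := CoprodI G

/-- the group structure -/
instance gFree : Group (FreeP G) := (inferInstance : Group (CoprodI G))

/-- the automorphism group of the free product -/
def AutF : Type := MulAut (FreeP G)

/-- the group structure -/
instance gAut : Group (AutF G) := (inferInstance : Group (MulAut (FreeP G)))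

/-- the factor `i` of the free product -/
def factor (i : ι) : Subgroup (FreeP G) := (CoprodI.of : G i →* CoprodI G).range

/-- the automorphism permutes the conjugacy classes of the factors -/
def IsSym (φ : AutF G) : Prop :=
  ∃ σ : Equiv.Perm ι, ∀ i, ToConj φ (factor G i) (factor G (σ i))

theorem isSym_one : IsSym G 1 := (Sym G).one_mem

theorem isSym_mul (φ ψ : AutF G) (h : IsSym G φ) (h' : IsSym G ψ) : IsSym G (φ * ψ) :=
  (Sym G).mul_mem h h'

theorem isSym_inv (φ : AutF G) (h : IsSym G φ) : IsSym G φ⁻¹ := (Sym G).inv_mem h

/-- the automorphisms of the free product of the `G i` which permute the conjugacy classes of the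
factors -/
def SymP : Subgroup (AutF G) where
  carrier := {φ | IsSym G φ}
  one_mem' := isSym_one G
  mul_mem' := fun h h' => isSym_mul G _ _ h h'
  inv_mem' := fun h => isSym_inv G _ h

/-- the inner automorphisms -/
def InnF : Subgroup (AutF G) := (MulAut.conj (G := FreeP G)).range

/-- the inner automorphisms, as a subgroup of `SymP G` -/
def InnP : Subgroup (SymP G) := (InnF G).subgroupOf (SymP G)

theorem innP_eq : InnP G = (innS G).range := by
  ext φ
  constructor
  · rintro ⟨n, hn⟩
    exact ⟨n, Subtype.ext hn⟩
  · rintro ⟨n, hn⟩
    exact ⟨n, congrArg Subtype.val hn⟩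

instance innPN : (InnP G).Normal := by
  have h := innSN (G := G)
  rw [← innP_eq] at h
  exact h

/-- the group of the outer automorphisms of the free product of the `G i` which permute the conjugacy
classes of the factors -/
def OutSym : Type := SymP G ⧸ InnP G

/-- the group structure -/
instance gOut : Group (OutSym G) := QuotientGroup.Quotient.group (InnP G)

end

/-- the holomorph of a group: the semidirect product of `A` and `Aut A` -/
def Holo (A : Type) [Group A] : Type := A ⋊[MonoidHom.id (MulAut A)] MulAut A

/-- the group structure -/
instance gHolo (A : Type) [Group A] : Group (Holo A) :=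
  (inferInstance : Group (A ⋊[MonoidHom.id (MulAut A)] MulAut A))

/-- **outer automorphisms of free products of three groups** -/
theorem main' {C : ∀ (G : Type) [Group G], Prop} (hC : ClosedE C) (G : Fin 3 → Type)
    [∀ i, Group (G i)] [∀ i, Nontrivial (G i)] : C (OutSym G) ↔ ∀ i, C (Holo (G i)) := by
  have h0 : C (OutSym G) ↔ C (SOut G) := by
    let I : Subgroup (Sym G) := InnP G
    have hI : I.Normal := innPN G
    have hIe : I = (innS G).range := innP_eq G
    have e : OutSym G ≃* SOut G := (QuotientGroup.quotientMulEquivOfEq hIe : Sym G ⧸ I ≃* _)
    exact ⟨fun h => hC.base.of_injective _ _ e.symm.toMonoidHom e.symm.injective h,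
      fun h => hC.base.of_injective _ _ e.toMonoidHom e.injective h⟩
  rw [h0]
  exact main hC G

end Q171.OF
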