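import Mathlib

/-!
# A criterion for coset graphs to be trees
-/

set_option autoImplicit false

namespace Q171.OF

open SimpleGraph

/-- a graph in which each vertex has at most one neighbour which is not higher is a forest -/
theorem acyclic_of_local {V : Type} {T : SimpleGraph V} (μ : V → ℕ)
    (h : ∀ u v w, T.Adj u v → T.Adj u w → μ v ≤ μ u → μ w ≤ μ u → v = w) : T.IsAcyclic := by
  classical
  intro v c hc
  obtain ⟨u, hu, hmax⟩ := c.support.toFinset.exists_max_image μ
    ⟨v, List.mem_toFinset.2 c.start_mem_support⟩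
  have hu' : u ∈ c.support := List.mem_toFinset.1 hu
  have hmax' : ∀ w ∈ c.support, μ w ≤ μ u := fun w hw => hmax w (List.mem_toFinset.2 hw)
  have hc' : (c.rotate u hu').IsCycle := (Walk.isCycle_rotate hu').2 hc
  have hn : ¬ (c.rotate u hu').Nil := hc'.not_nil
  apply hc'.snd_ne_penultimate
  have hs : ∀ w, w ∈ (c.rotate u hu').support → w ∈ c.support := fun w hw =>
    (Walk.mem_support_rotate_iff _ _ _).1 hw
  refine h u _ _ (Walk.adj_snd hn) (Walk.adj_penultimate hn).symm ?_ ?_
  · exact hmax' _ (hs _ (Walk.getVert_mem_support _ _))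
  · exact hmax' _ (hs _ (Walk.getVert_mem_support _ _))

section

variable {Q ι : Type} [Group Q] (E : Subgroup Q) (P : ι → Subgroup Q)

/-- the vertices of the coset graph -/
abbrev CVt : Type := (Q ⧸ E) ⊕ (Σ i, Q ⧸ P i)

/-- the vertex `g E` -/
abbrev v0 (g : Q) : CVt E P := Sum.inl (g : Q ⧸ E)

/-- the vertex `g P_i` -/
abbrev v1 (i : ι) (g : Q) : CVt E P := Sum.inr ⟨i, (g : Q ⧸ P i)⟩

/-- the coset graph -/
def cg : SimpleGraph (CVt E P) where
  Adj u v := ∃ (g : Q) (i : ι), (u = v0 E P g ∧ v = v1 E P i g) ∨ (v = v0 E P g ∧ u = v1 E P i g)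
  symm := ⟨fun _ _ ⟨g, i, h⟩ => ⟨g, i, h.symm⟩⟩
  loopless := ⟨fun v ⟨g, i, h⟩ => by
    rcases h with ⟨h1, h2⟩ | ⟨h1, h2⟩ <;> · rw [h1] at h2; exact Sum.inl_ne_inr h2⟩

variable {E P}

theorem v0_eq {g g' : Q} : v0 E P g = v0 E P g' ↔ g⁻¹ * g' ∈ E := by
  unfold v0
  rw [Sum.inl.injEq, QuotientGroup.eq]

theorem v1_eq {i j : ι} {g g' : Q} : v1 E P i g = v1 E P j g' ↔ i = j ∧ g⁻¹ * g' ∈ P i := by
  unfold v1
  rw [Sum.inr.injEq, Sigma.mk.injEq]
  constructor
  · rintro ⟨rfl, h⟩
    exact ⟨rfl, QuotientGroup.eq.1 (eq_of_heq h)⟩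
  · rintro ⟨rfl, h⟩
    exact ⟨rfl, heq_of_eq (QuotientGroup.eq.2 h)⟩

theorem cg_smul (a g : Q) : a • v0 E P g = v0 E P (a * g) := rfl

theorem cg_smul' (a : Q) (i : ι) (g : Q) : a • v1 E P i g = v1 E P i (a * g) := rfl

theorem cg_cases (v : CVt E P) : (∃ g, v = v0 E P g) ∨ ∃ i g, v = v1 E P i g := by
  rcases v with v | ⟨i, v⟩
  · induction v using QuotientGroup.induction_on with
    | H g => exact Or.inl ⟨g, rfl⟩
  · induction v using QuotientGroup.induction_on with
    | H g => exact Or.inr ⟨i, g, rfl⟩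

theorem cg_adj (g : Q) (i : ι) : (cg E P).Adj (v0 E P g) (v1 E P i g) :=
  ⟨g, i, Or.inl ⟨rfl, rfl⟩⟩

theorem cg_adj_smul (a : Q) {u v : CVt E P} (h : (cg E P).Adj u v) :
    (cg E P).Adj (a • u) (a • v) := by
  obtain ⟨g, i, h⟩ := h
  refine ⟨a * g, i, ?_⟩
  rcases h with ⟨rfl, rfl⟩ | ⟨rfl, rfl⟩
  · exact Or.inl ⟨rfl, rfl⟩
  · exact Or.inr ⟨rfl, rfl⟩

variable (E P) in
/-- the criterion: `size` is a function on the cosets of `E` which has, on each coset of `P i`, a
strict minimum at one coset of `E`; each coset of `E` except the trivial one is not minimal for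
exactly one `i` -/
structure Crit (size : Q → ℕ) : Prop where
  le : ∀ i, E ≤ P i
  inv : ∀ g, ∀ e ∈ E, size (g * e) = size g
  uniq : ∀ i g, ∀ p ∈ P i, (∀ p' ∈ P i, size g ≤ size (g * p')) → size (g * p) ≤ size g → p ∈ E
  one : ∀ g i j, (∃ p ∈ P i, size (g * p) < size g) → (∃ p ∈ P j, size (g * p) < size g) → i = j
  base : ∀ g, (∀ i, ∀ p ∈ P i, size g ≤ size (g * p)) → g ∈ E

variable {size : Q → ℕ}

open Classical in
/-- the minimum on a coset -/
noncomputable def mn (P : ι → Subgroup Q) (size : Q → ℕ) (i : ι) (g : Q) : ℕ :=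
  sInf {n | ∃ p ∈ P i, size (g * p) = n}

theorem mn_mem (i : ι) (g : Q) : ∃ p ∈ P i, size (g * p) = mn P size i g :=
  Nat.sInf_mem (s := {n | ∃ p ∈ P i, size (g * p) = n}) ⟨_, 1, one_mem _, rfl⟩

theorem mn_le (i : ι) (g : Q) {p : Q} (hp : p ∈ P i) : mn P size i g ≤ size (g * p) :=
  Nat.sInf_le ⟨p, hp, rfl⟩

theorem mn_congr (i : ι) (g : Q) {p : Q} (hp : p ∈ P i) : mn P size i (g * p) = mn P size i g := by
  unfold mn
  congr 1
  ext n
  constructor
  · rintro ⟨q, hq, h⟩
    exact ⟨p * q, mul_mem hp hq, by rw [← h, mul_assoc]⟩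
  · rintro ⟨q, hq, h⟩
    exact ⟨p⁻¹ * q, mul_mem (inv_mem hp) hq, by rw [← h]; congr 1; group⟩

theorem Crit.isTree (h : Crit E P size) : (cg E P).IsTree := by
  classical
  constructor
  · -- connected
    have key : ∀ n : ℕ, ∀ g : Q, size g ≤ n → (cg E P).Reachable (v0 E P 1) (v0 E P g) := by
      intro n
      induction n with
      | zero =>
        intro g hg
        have h1 : g ∈ E := h.base g (fun i p _ => by omega)
        have h2 : v0 E P 1 = v0 E P g := by rw [v0_eq]; simpa using h1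
        rw [h2]
      | succ n ih =>
        intro g hg
        by_cases hb : ∀ i, ∀ p ∈ P i, size g ≤ size (g * p)
        · have h1 : g ∈ E := h.base g hb
          have h2 : v0 E P 1 = v0 E P g := by rw [v0_eq]; simpa using h1
          rw [h2]
        · push Not at hb
          obtain ⟨i, p, hp, hlt⟩ := hb
          have h1 := ih (g * p) (by omega)
          have h2 := (cg_adj (E := E) (P := P) (g * p) i).reachable
          have h3 := (cg_adj (E := E) (P := P) g i).reachable
          have h4 : v1 E P i (g * p) = v1 E P i g := by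
            rw [v1_eq]
            refine ⟨rfl, ?_⟩
            have : (g * p)⁻¹ * g = p⁻¹ := by group
            rw [this]
            exact inv_mem hp
          rw [h4] at h2
          exact (h1.trans h2).trans h3.symm
    have key2 : ∀ v : CVt E P, (cg E P).Reachable (v0 E P 1) v := by
      intro v
      rcases cg_cases v with ⟨g, rfl⟩ | ⟨i, g, rfl⟩
      · exact key _ g le_rfl
      · exact (key _ g le_rfl).trans (cg_adj g i).reachable
    have : Nonempty (CVt E P) := ⟨v0 E P 1⟩
    exact ⟨fun u v => (key2 u).symm.trans (key2 v)⟩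
  · -- acyclic
    let μ : CVt E P → ℕ := Sum.elim
      (fun q => Quotient.liftOn' q (fun g => 2 * size g) (by
        intro a b hab
        rw [QuotientGroup.leftRel_apply] at hab
        have h1 := h.inv a _ hab
        have h2 : a * (a⁻¹ * b) = b := by group
        rw [h2] at h1
        show 2 * size a = 2 * size b
        rw [h1]))
      (fun q => Quotient.liftOn' q.2 (fun g => 2 * mn P size q.1 g + 1) (by
        intro a b hab
        rw [QuotientGroup.leftRel_apply] at hab
        have h1 := mn_congr (P := P) (size := size) q.1 a hab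
        have h2 : a * (a⁻¹ * b) = b := by group
        rw [h2] at h1
        show 2 * mn P size q.1 a + 1 = 2 * mn P size q.1 b + 1
        rw [h1]))
    have μ0 : ∀ g, μ (v0 E P g) = 2 * size g := fun g => rfl
    have μ1 : ∀ i g, μ (v1 E P i g) = 2 * mn P size i g + 1 := fun i g => rfl
    refine acyclic_of_local μ ?_
    rintro u v w ⟨g, i, h1⟩ ⟨g', j, h2⟩ h3 h4
    rcases h1 with ⟨rfl, rfl⟩ | ⟨rfl, rfl⟩
    · -- `u` is of type 0
      rcases h2 with ⟨h2, rfl⟩ | ⟨_, h2⟩
      · rw [v0_eq] at h2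
        have h5 : v1 E P j g' = v1 E P j g := by
          rw [v1_eq]
          refine ⟨rfl, ?_⟩
          have : g'⁻¹ * g = (g⁻¹ * g')⁻¹ := by group
          rw [this]
          exact inv_mem (h.le j h2)
        rw [h5] at h4 ⊢
        rw [μ0, μ1] at h3 h4
        obtain ⟨p, hp, hp'⟩ := mn_mem (P := P) (size := size) i g
        obtain ⟨q, hq, hq'⟩ := mn_mem (P := P) (size := size) j g
        have h6 := h.one g i j ⟨p, hp, by omega⟩ ⟨q, hq, by omega⟩
        rw [h6]
      · exact (Sum.inl_ne_inr h2).elim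
    · -- `u` is of type 1
      rcases h2 with ⟨h2, _⟩ | ⟨rfl, h2⟩
      · exact (Sum.inr_ne_inl h2).elim
      · rw [v1_eq] at h2
        obtain ⟨rfl, h2⟩ := h2
        rw [μ0, μ1] at h3 h4
        have h5 : ∀ p' ∈ P i, size g ≤ size (g * p') := by
          intro p' hp'
          have h6 := mn_le (size := size) i g hp'
          omega
        have h6 : g * (g⁻¹ * g') = g' := by group
        rw [v0_eq]
        refine h.uniq i g _ h2 h5 ?_
        rw [h6]
        have h7 := mn_le (size := size) i g (one_mem (P i))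
        rw [mul_one] at h7
        omega

end

end Q171.OF
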