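import Pool.Agent.Q171.OF.Kill

/-!
# Outer automorphism groups of free products of three groups
-/

set_option autoImplicit false

namespace Q171.OF

open Monoid CoprodI SimpleGraph
open Pool.Agent.Y110.FJ (ClosedE)
open Q171.NF (cj mem_cj cj_one cj_mul cj_self cj_inj ToConj map_cj map_mul_aut aut_conj Hol)

section

variable {C : ∀ (G : Type) [Group G], Prop}

theorem pi_two (hC : ClosedE C) {ι : Type} (hι : Two ι) (A : ι → Type) [∀ i, Group (A i)]
    (h : ∀ i, C (A i)) : C (∀ i, A i) := by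
  obtain ⟨a, b, _, hc⟩ := hι
  refine hC.base.of_injective _ _
    ({ toFun := fun f => (f a, f b)
       map_one' := rfl
       map_mul' := fun _ _ => rfl } : (∀ i, A i) →* A a × A b) ?_ (hC.base.prod _ _ (h a) (h b))
  intro f g hfg
  have h1 : f a = g a := congrArg Prod.fst hfg
  have h2 : f b = g b := congrArg Prod.snd hfg
  funext i
  rcases hc i with rfl | rfl
  · exact h1
  · exact h2

theorem pi_three (hC : ClosedE C) (A : Fin 3 → Type) [∀ i, Group (A i)]
    (h : ∀ i, C (A i)) : C (∀ i, A i) := by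
  refine hC.base.of_injective _ _
    ({ toFun := fun f => (f 0, f 1, f 2)
       map_one' := rfl
       map_mul' := fun _ _ => rfl } : (∀ i, A i) →* A 0 × A 1 × A 2) ?_
    (hC.base.prod _ _ (h 0) (hC.base.prod _ _ (h 1) (h 2)))
  intro f g hfg
  have h1 : f 0 = g 0 := congrArg Prod.fst hfg
  have h2 : f 1 = g 1 := congrArg (fun x => x.2.1) hfg
  have h3 : f 2 = g 2 := congrArg (fun x => x.2.2) hfg
  funext i
  fin_cases i
  · exact h1
  · exact h2
  · exact h3

/-- stabilizers in coset graphs -/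
theorem stab_v0 (hC : ClosedE C) {Q ι : Type} [Group Q] {E : Subgroup Q} {P : ι → Subgroup Q}
    (hE : C E) (g : Q) : C (MulAction.stabilizer Q (v0 E P g)) := by
  have key : ∀ s : MulAction.stabilizer Q (v0 E P g), g⁻¹ * (s : Q) * g ∈ E := by
    intro s
    have h1 : (s : Q) • v0 E P g = v0 E P g := s.2
    rw [cg_smul, eq_comm, v0_eq] at h1
    rwa [mul_assoc]
  refine hC.base.of_injective _ _
    ({ toFun := fun s => ⟨g⁻¹ * (s : Q) * g, key s⟩
       map_one' := Subtype.ext (by
        change g⁻¹ * 1 * g = 1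
        group)
       map_mul' := fun s t => Subtype.ext (by
        change g⁻¹ * ((s : Q) * t) * g = g⁻¹ * (s : Q) * g * (g⁻¹ * (t : Q) * g)
        group) } : MulAction.stabilizer Q (v0 E P g) →* E) ?_ hE
  intro s t h
  apply Subtype.ext
  have h1 : g⁻¹ * (s : Q) * g = g⁻¹ * (t : Q) * g := congrArg Subtype.val h
  exact mul_left_cancel (mul_right_cancel h1)

theorem stab_v1 (hC : ClosedE C) {Q ι : Type} [Group Q] {E : Subgroup Q} {P : ι → Subgroup Q}
    (i : ι) (hP : C (P i)) (g : Q) : C (MulAction.stabilizer Q (v1 E P i g)) := by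
  have key : ∀ s : MulAction.stabilizer Q (v1 E P i g), g⁻¹ * (s : Q) * g ∈ P i := by
    intro s
    have h1 : (s : Q) • v1 E P i g = v1 E P i g := s.2
    rw [cg_smul', eq_comm, v1_eq] at h1
    rw [mul_assoc]
    exact h1.2
  refine hC.base.of_injective _ _
    ({ toFun := fun s => ⟨g⁻¹ * (s : Q) * g, key s⟩
       map_one' := Subtype.ext (by
        change g⁻¹ * 1 * g = 1
        group)
       map_mul' := fun s t => Subtype.ext (by
        change g⁻¹ * ((s : Q) * t) * g = g⁻¹ * (s : Q) * g * (g⁻¹ * (t : Q) * g)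
        group) } : MulAction.stabilizer Q (v1 E P i g) →* P i) ?_ hP
  intro s t h
  apply Subtype.ext
  have h1 : g⁻¹ * (s : Q) * g = g⁻¹ * (t : Q) * g := congrArg Subtype.val h
  exact mul_left_cancel (mul_right_cancel h1)

/-- trees of coset graphs with a homomorphism which is injective on the edge group -/
theorem coset_tree (hC : ClosedE C) {Q ι R : Type} [Group Q] [Group R] {E : Subgroup Q}
    {P : ι → Subgroup Q} (hT : (cg E P).IsTree) (ρ : Q →* R) (hR : C R)
    (hρ : ∀ e ∈ E, ρ e = 1 → e = 1) (hE : C E) (hP : ∀ i, C (P i)) : C Q := by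
  refine Q9.FJT.tree_edge ρ hC hR hT (fun g v w h => cg_adj_smul g h) ?_ ?_ ?_
  · rintro g v w ⟨x, i, h⟩ ⟨h1, h2⟩
    rcases h with ⟨rfl, rfl⟩ | ⟨rfl, rfl⟩
    · exact Sum.inl_ne_inr h1
    · exact Sum.inl_ne_inr h2
  · have key : ∀ (g x : Q), g • v0 E P x = v0 E P x → ρ g = 1 → g = 1 := by
      intro g x h1 h2
      rw [cg_smul, eq_comm, v0_eq] at h1
      have h3 := hρ _ h1 (by rw [map_mul, map_mul, h2, one_mul, ← map_mul, inv_mul_cancel,
        map_one])
      have h4 : g = x * (x⁻¹ * (g * x)) * x⁻¹ := by group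
      rw [h4, h3]
      group
    rintro g v w ⟨x, i, h⟩ h1 h2 h3
    rcases h with ⟨rfl, rfl⟩ | ⟨rfl, rfl⟩
    · exact key g x h1 h3
    · exact key g x h2 h3
  · intro v
    rcases cg_cases v with ⟨g, rfl⟩ | ⟨i, g, rfl⟩
    · exact stab_v0 hC hE g
    · exact stab_v1 hC i (hP i) g

end

section

variable {ι : Type} {G : ι → Type} [∀ i, Group (G i)]

/-- a partial conjugation times a factor automorphism -/
noncomputable def Rr {i k : ι} (hik : i ≠ k) (u : G i) (β : ∀ l, MulAut (G l)) : Pure G :=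
  ⟨pk hik u * mp β, mul_mem (pk_mem hik u) (mp_mem β)⟩

theorem Rr_mul {i k : ι} (hik : i ≠ k) (u v : G i) (β γ : ∀ l, MulAut (G l)) :
    Rr hik u β * Rr hik v γ = Rr hik (u * β i v) (β * γ) := by
  apply Subtype.ext
  change pk hik u * mp β * (pk hik v * mp γ) = pk hik (u * β i v) * mp (β * γ)
  rw [mul_assoc, ← mul_assoc (mp β), mp_pk, map_mul, map_mul]
  simp only [mul_assoc]

variable [∀ i, Nontrivial (G i)]

theorem Rr_inj {i j k : ι} (hij : i ≠ j) (hik : i ≠ k) (hjk : j ≠ k) {u v : G i}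
    {β γ : ∀ l, MulAut (G l)} (h : (Rr hik u β : POut G) = Rr hik v γ) : u = v ∧ β = γ := by
  rw [QuotientGroup.eq] at h
  obtain ⟨n, hn⟩ := h
  have h1 : Rr hik v γ = Rr hik u β * inn G n := by rw [hn]; group
  rw [inn_conj] at h1
  obtain ⟨m, hm⟩ : ∃ m, m = (Rr hik u β).1 n := ⟨_, rfl⟩
  rw [← hm] at h1
  have h2 : (pk hik v * mp γ) = MulAut.conj m * (pk hik u * mp β) := congrArg Subtype.val h1
  have hpres : ∀ (w : G i) (δ : ∀ l, MulAut (G l)) (l : ι), l ≠ k →
      (fc G l).map (pk hik w * mp δ).toMonoidHom = fc G l := by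
    intro w δ l hl
    rw [map_mul_aut, mp_fc, pk_fc_ne hik w hl]
  have h3 : ∀ l, l ≠ k → cj m (fc G l) = fc G l := by
    intro l hl
    have h4 := hpres v γ l hl
    rw [h2, map_mul_aut, hpres u β l hl] at h4
    exact h4
  have h4 := inn_trivial hij (h3 i hik) (h3 j hjk)
  rw [h4, map_one, one_mul] at h2
  have h5 : ∀ l, l ≠ k → γ l = β l := by
    intro l hl
    ext x
    have h6 := DFunLike.congr_fun h2 (CoprodI.of x)
    change pk hik v (mp γ (CoprodI.of x)) = pk hik u (mp β (CoprodI.of x)) at h6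
    rw [mp_of, mp_of, pk_ne hik v hl, pk_ne hik u hl] at h6
    exact CoprodI.of_injective l h6
  have h6 : cj (CoprodI.of (u * v⁻¹)) (fc G k) = fc G k := by
    have h7 : (fc G k).map (pk hik v * mp γ).toMonoidHom =
        (fc G k).map (pk hik u * mp β).toMonoidHom := by rw [h2]
    rw [map_mul_aut, map_mul_aut, mp_fc, mp_fc, pk_fc_same, pk_fc_same] at h7
    rw [map_mul, cj_mul, h7, ← cj_mul, ← map_mul, mul_inv_cancel, map_one, cj_one]
  have h7 := inn_trivial hik (cj_self ⟨_, rfl⟩) h6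
  have h8 : u = v := by
    have h9 : u * v⁻¹ = 1 := by
      apply CoprodI.of_injective i
      rw [h7, map_one]
    exact mul_inv_eq_one.1 h9
  subst h8
  refine ⟨rfl, ?_⟩
  exact mp_inj (mul_left_cancel h2).symm

theorem St_decomp {i j k : ι} (hij : i ≠ j) (hik : i ≠ k) (hc : ∀ l, l = i ∨ l = j ∨ l = k)
    {ψ : Pure G} (hψ : ψ ∈ St G i) : ∃ (u : G i) (β : ∀ l, MulAut (G l)),
      (Rr hik u β : POut G) = ψ := by
  obtain ⟨z, hz, hz'⟩ := hψ i
  rw [cj_self hz] at hz'
  obtain ⟨y, hy, hj⟩ := hψ j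
  obtain ⟨y', hy', hk⟩ := hψ k
  obtain ⟨g, hg⟩ : y⁻¹ * y' ∈ fc G i := mul_mem (inv_mem hy) hy'
  have h1 : ∀ l, (fc G l).map (pk hik g * (MulAut.conj y⁻¹ * ψ.1)).toMonoidHom = fc G l := by
    intro l
    rw [map_mul_aut, map_mul_aut]
    by_cases hl : l = k
    · subst hl
      rw [hk]
      change (cj y⁻¹ (cj y' (fc G l))).map (pk hik g).toMonoidHom = _
      rw [← cj_mul, ← hg, map_cj, pk_fc_same, pk_ne hik g hik, ← cj_mul, ← map_mul,
        mul_inv_cancel, map_one, cj_one]
    · have h2 : (fc G l).map ψ.1.toMonoidHom = cj y (fc G l) := by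
        rcases hc l with rfl | rfl | rfl
        · rw [hz', cj_self hy]
        · exact hj
        · exact absurd rfl hl
      rw [h2]
      change (cj y⁻¹ (cj y (fc G l))).map (pk hik g).toMonoidHom = _
      rw [← cj_mul, inv_mul_cancel, cj_one, pk_fc_ne hik g hl]
  obtain ⟨β, hβ⟩ := exists_mp h1
  refine ⟨g⁻¹, β, ?_⟩
  have h2 : Rr hik g⁻¹ β = inn G y⁻¹ * ψ := by
    apply Subtype.ext
    change pk hik g⁻¹ * mp β = MulAut.conj y⁻¹ * ψ.1
    rw [hβ, map_inv, inv_mul_cancel_left]
  rw [h2, QuotientGroup.eq]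
  refine ⟨ψ.1⁻¹ y, ?_⟩
  have h3 := inn_conj ψ (ψ.1⁻¹ y)
  rw [MulAut.apply_inv_self] at h3
  rw [mul_inv_rev, mul_assoc, ← map_inv, inv_inv, ← h3, inv_mul_cancel_left]

end

section

variable {C : ∀ (G : Type) [Group G], Prop} {G : Fin 3 → Type} [∀ i, Group (G i)]
  [∀ i, Nontrivial (G i)]

theorem mem_OSt_class (hC : ClosedE C) (h : ∀ i, C (Hol (G i))) (i : Fin 3) : C (OSt G i) := by
  obtain ⟨j, k, hij, hik, hjk⟩ := others i
  have hex : ∀ q : OSt G i, ∃ (u : G i) (β : ∀ l, MulAut (G l)),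
      (Rr hik u β : POut G) = q := by
    rintro ⟨_, ψ, hψ, rfl⟩
    exact St_decomp hij hik (fun l => cover i j k l hij hik hjk) hψ
  choose u β hu using hex
  have hM : ∀ l, C (MulAut (G l)) := fun l => hC.base.of_injective _ _
    (SemidirectProduct.inr : MulAut (G l) →* Hol (G l)) SemidirectProduct.inr_injective (h l)
  let F : OSt G i →* Hol (G i) × (∀ l, MulAut (G l)) :=
    { toFun := fun q => (⟨u q, β q i⟩, β q)
      map_one' := by
        have h1 : ((Rr hik (u 1) (β 1) : Pure G) : POut G) = ((Rr hik 1 1 : Pure G) : POut G) := by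
          rw [hu]
          change (1 : POut G) = ((Rr hik 1 1 : Pure G) : POut G)
          have h2 : (Rr hik 1 1 : Pure G) = 1 := by
            apply Subtype.ext
            change pk hik 1 * mp 1 = 1
            rw [map_one, map_one, one_mul]
          rw [h2]
          rfl
        obtain ⟨h2, h3⟩ := Rr_inj hij hik hjk h1
        rw [h2, h3]
        rfl
      map_mul' := by
        intro q r
        have h1 : ((Rr hik (u (q * r)) (β (q * r)) : Pure G) : POut G) =
            ((Rr hik (u q * β q i (u r)) (β q * β r) : Pure G) : POut G) := by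
          rw [← Rr_mul, hu]
          change (q : POut G) * r = ((Rr hik (u q) (β q) : Pure G) : POut G) *
            ((Rr hik (u r) (β r) : Pure G) : POut G)
          rw [hu, hu]
        obtain ⟨h2, h3⟩ := Rr_inj hij hik hjk h1
        rw [h2, h3]
        rfl }
  refine hC.base.of_injective _ _ F ?_ (hC.base.prod _ _ (h i) (pi_three hC _ hM))
  intro q r hqr
  have h1 : β q = β r := congrArg Prod.snd hqr
  have h2 : u q = u r := congrArg (fun x => x.1.left) hqr
  apply Subtype.ext
  rw [← hu q, ← hu r, h1, h2]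

theorem two_ne (i : Fin 3) : Two {j : Fin 3 // j ≠ i} := by
  fin_cases i
  · refine ⟨⟨1, by decide⟩, ⟨2, by decide⟩, by decide, by decide⟩
  · refine ⟨⟨0, by decide⟩, ⟨2, by decide⟩, by decide, by decide⟩
  · refine ⟨⟨0, by decide⟩, ⟨1, by decide⟩, by decide, by decide⟩

/-- the homomorphism given by killing the factor `i` -/
theorem exists_kappa (i : Fin 3) : ∃ κ : POut G →* (∀ j : {j // j ≠ i}, MulAut (G j)),
    ∀ (β : ∀ j, MulAut (G j)), κ ((⟨mp β, mp_mem β⟩ : Pure G) : POut G) =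
      fun j : {j // j ≠ i} => β j.1 := by
  obtain ⟨F, hF⟩ := exists_fac (G := Sb G (fun j => j ≠ i)) (two_ne i)
  refine ⟨QuotientGroup.lift _ (F.comp (barP (fun j => j ≠ i))) ?_, ?_⟩
  · rintro _ ⟨n, rfl⟩
    rw [MonoidHom.mem_ker, MonoidHom.comp_apply, barP_inn]
    refine hF _ (kl _ n) 1 ?_
    rw [map_one, mul_one]
    rfl
  · intro β
    refine hF _ 1 _ ?_
    rw [map_one, one_mul]
    exact bar_mp _ β

theorem POut_mem (hC : ClosedE C) (h : ∀ i, C (Hol (G i))) : C (POut G) := by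
  have hM : ∀ l, C (MulAut (G l)) := fun l => hC.base.of_injective _ _
    (SemidirectProduct.inr : MulAut (G l) →* Hol (G l)) SemidirectProduct.inr_injective (h l)
  obtain ⟨κ, hκ⟩ := exists_kappa (G := G) 0
  obtain ⟨κ', hκ'⟩ := exists_kappa (G := G) 1
  refine coset_tree hC ocrit.isTree (κ.prod κ') (hC.base.prod _ _
    (pi_two hC (two_ne 0) _ (fun j => hM j)) (pi_two hC (two_ne 1) _ (fun j => hM j))) ?_ ?_
    (mem_OSt_class hC h)
  · rintro _ ⟨ψ, hψ, rfl⟩ h1
    obtain ⟨β, hβ⟩ := exists_mp hψ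
    have h2 : ψ = ⟨mp β, mp_mem β⟩ := Subtype.ext hβ.symm
    have h3 : κ ((ψ : Pure G) : POut G) = 1 := congrArg Prod.fst h1
    have h4 : κ' ((ψ : Pure G) : POut G) = 1 := congrArg Prod.snd h1
    rw [h2, hκ] at h3
    rw [h2, hκ'] at h4
    have h5 : β = 1 := by
      funext l
      by_cases hl : l = 0
      · exact congrFun h4 ⟨l, by rw [hl]; decide⟩
      · exact congrFun h3 ⟨l, hl⟩
    change ((ψ : Pure G) : POut G) = 1
    rw [h2]
    have h6 : (⟨mp β, mp_mem β⟩ : Pure G) = 1 := Subtype.ext (by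
      change mp β = 1
      rw [h5, map_one])
    rw [h6]
    rfl
  · exact hC.base.of_injective _ _ (Subgroup.inclusion (ocrit.le 0))
      (Subgroup.inclusion_injective _) (mem_OSt_class hC h 0)

/-- the holomorphs are embedded -/
theorem Hol_of_POut (hC : ClosedE C) (h : C (POut G)) (i : Fin 3) : C (Hol (G i)) := by
  obtain ⟨j, k, hij, hik, hjk⟩ := others i
  let F : Hol (G i) →* POut G :=
    { toFun := fun p => ((Rr hik p.left (Pi.mulSingle i p.right) : Pure G) : POut G)
      map_one' := by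
        have h2 : (Rr hik (1 : Hol (G i)).left (Pi.mulSingle i (1 : Hol (G i)).right) :
            Pure G) = 1 := by
          apply Subtype.ext
          change pk hik 1 * mp (Pi.mulSingle i 1) = 1
          rw [map_one, Pi.mulSingle_one, map_one, one_mul]
        rw [h2]
        rfl
      map_mul' := by
        intro p q
        change _ = (((Rr hik p.left (Pi.mulSingle i p.right) : Pure G) *
          (Rr hik q.left (Pi.mulSingle i q.right) : Pure G) : Pure G) : POut G)
        rw [Rr_mul, Pi.mulSingle_eq_same, ← Pi.mulSingle_mul]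
        rfl }
  refine hC.base.of_injective _ _ F ?_ h
  intro p q hpq
  obtain ⟨h1, h2⟩ := Rr_inj hij hik hjk hpq
  have h3 := congrFun h2 i
  rw [Pi.mulSingle_eq_same, Pi.mulSingle_eq_same] at h3
  exact SemidirectProduct.ext h1 h3

end

end Q171.OF
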