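import Mathlib

/-!
# Distances and directions in trees
-/

set_option autoImplicit false

namespace Q171.OF

open SimpleGraph

section

variable {V : Type} {T : SimpleGraph V}

/-- `z` is the neighbour of `y` in the direction of `x` -/
def Nx (T : SimpleGraph V) (y x z : V) : Prop := T.Adj y z ∧ T.dist z x + 1 = T.dist y x

theorem path_length (hT : T.IsTree) {x y : V} (p : T.Walk x y) (hp : p.IsPath) :
    p.length = T.dist x y := by
  obtain ⟨q, hq, hl⟩ := hT.connected.exists_path_of_dist x y
  have h1 := (hT.existsUnique_path x y).unique hp hq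
  rw [h1, hl]

theorem exists_nx (hT : T.IsTree) {y x : V} (h : y ≠ x) : ∃ z, Nx T y x z := by
  obtain ⟨q, hq, hl⟩ := hT.connected.exists_path_of_dist y x
  cases q with
  | nil => exact absurd rfl h
  | @cons _ z _ hadj q =>
    refine ⟨z, hadj, ?_⟩
    rw [← hl, Walk.length_cons]
    rw [path_length hT q hq.of_cons]

theorem nx_unique (hT : T.IsTree) {y x z z' : V} (h : Nx T y x z) (h' : Nx T y x z') :
    z = z' := by
  have key : ∀ z, Nx T y x z → ∃ (ha : T.Adj y z) (q : T.Walk z x), (Walk.cons ha q).IsPath := by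
    intro z h
    obtain ⟨q, hq, hl⟩ := hT.connected.exists_path_of_dist z x
    refine ⟨h.1, q, ?_⟩
    apply Walk.isPath_of_length_eq_dist
    rw [Walk.length_cons, hl, h.2]
  obtain ⟨ha, q, hq⟩ := key z h
  obtain ⟨ha', q', hq'⟩ := key z' h'
  have h1 := (hT.existsUnique_path y x).unique hq hq'
  injection h1

/-- neighbours not in the direction of `x` are further away -/
theorem dist_of_not_nx (hT : T.IsTree) {y x z : V} (ha : T.Adj y z) (h : ¬ Nx T y x z) :
    T.dist z x = T.dist y x + 1 := by
  have h1 := hT.dist_eq_dist_add_one_of_adj x ha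
  rw [dist_comm (u := x), dist_comm (u := x)] at h1
  rcases h1 with h1 | h1
  · exact absurd ⟨ha, h1.symm⟩ h
  · exact h1

theorem nx_of_path (hT : T.IsTree) {y x z : V} (ha : T.Adj y z) (q : T.Walk z x)
    (h : (Walk.cons ha q).IsPath) : Nx T y x z := by
  refine ⟨ha, ?_⟩
  rw [← path_length hT _ h, Walk.length_cons, path_length hT q h.of_cons]

/-- concatenation of geodesics -/
theorem concat (hT : T.IsTree) {x y z a b : V} (ha : Nx T y x a) (hb : Nx T y z b)
    (hab : a ≠ b) : T.dist x z = T.dist x y + T.dist y z ∧ ∀ c, Nx T x y c → Nx T x z c := by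
  obtain ⟨p, hp, hpl⟩ := hT.connected.exists_path_of_dist a x
  obtain ⟨q, hq, hql⟩ := hT.connected.exists_path_of_dist b z
  have hpp : (Walk.cons ha.1 p).IsPath := by
    apply Walk.isPath_of_length_eq_dist
    rw [Walk.length_cons, hpl, ha.2]
  have hqq : (Walk.cons hb.1 q).IsPath := by
    apply Walk.isPath_of_length_eq_dist
    rw [Walk.length_cons, hql, hb.2]
  let w := (Walk.cons ha.1 p).reverse.append (Walk.cons hb.1 q)
  have hw : w.IsPath := by
    rw [hT.isAcyclic.isPath_iff_isChain]
    rw [Walk.edges_append]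
    refine List.IsChain.append ?_ ?_ ?_
    · rw [← hT.isAcyclic.isPath_iff_isChain]
      exact hpp.reverse
    · rw [← hT.isAcyclic.isPath_iff_isChain]
      exact hqq
    · intro e he f hf
      rw [Walk.edges_reverse, Walk.edges_cons, List.getLast?_reverse] at he
      rw [Walk.edges_cons] at hf
      simp only [List.head?_cons, Option.mem_some_iff] at he hf
      subst he hf
      intro h
      rw [Sym2.eq_iff] at h
      rcases h with ⟨_, h⟩ | ⟨h, _⟩
      · exact hab h
      · exact hb.1.ne h
  have hlen : T.dist x z = T.dist x y + T.dist y z := by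
    rw [← path_length hT _ hw, Walk.length_append, Walk.length_reverse,
      path_length hT _ hpp, path_length hT _ hqq, dist_comm (u := y)]
  refine ⟨hlen, ?_⟩
  intro c hc
  refine ⟨hc.1, ?_⟩
  have h1 : T.dist c z ≤ T.dist c y + T.dist y z := hT.connected.dist_triangle
  have h2 := hT.dist_eq_dist_add_one_of_adj z hc.1
  rw [dist_comm (u := z), dist_comm (u := z)] at h2
  have h3 := hc.2
  omega

theorem dist_lt (hT : T.IsTree) {x y z a : V} (ha : Nx T y x a) (hb : Nx T y z a) :
    T.dist x z < T.dist x y + T.dist y z := by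
  have h1 : T.dist x z ≤ T.dist x a + T.dist a z := hT.connected.dist_triangle
  have h2 := ha.2
  have h3 := hb.2
  rw [dist_comm (u := a), dist_comm (u := y)] at h2
  omega

/-- automorphisms -/
theorem dist_le_map (hT : T.IsTree) {f : V → V} (hf : ∀ a b, T.Adj a b → T.Adj (f a) (f b))
    (x y : V) : T.dist (f x) (f y) ≤ T.dist x y := by
  obtain ⟨q, _, hql⟩ := hT.connected.exists_path_of_dist x y
  let F : T →g T := ⟨f, fun h => hf _ _ h⟩
  rw [← hql, ← Walk.length_map F q]
  exact dist_le _

variable {G : Type} [Group G] [MulAction G V]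

theorem dist_smul (hT : T.IsTree) (hadj : ∀ (g : G) (a b : V), T.Adj a b → T.Adj (g • a) (g • b))
    (g : G) (x y : V) : T.dist (g • x) (g • y) = T.dist x y := by
  apply le_antisymm
  · exact dist_le_map hT (hadj g) x y
  · have h1 := dist_le_map hT (hadj g⁻¹) (g • x) (g • y)
    rwa [inv_smul_smul, inv_smul_smul] at h1

theorem nx_smul (hT : T.IsTree) (hadj : ∀ (g : G) (a b : V), T.Adj a b → T.Adj (g • a) (g • b))
    (g : G) {y x z : V} (h : Nx T y x z) : Nx T (g • y) (g • x) (g • z) :=
  ⟨hadj g _ _ h.1, by rw [dist_smul hT hadj, dist_smul hT hadj]; exact h.2⟩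

end

end Q171.OF
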