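import Pool.Agent.Q171.OF.Three

/-!
# Killing a factor, and free products of two groups
-/

set_option autoImplicit false

namespace Q171.OF

open Monoid CoprodI SimpleGraph
open Q171.NF (cj mem_cj cj_one cj_mul cj_self cj_inj ToConj map_cj map_mul_aut aut_conj)

section

variable {ι : Type} {G : ι → Type} [∀ i, Group (G i)] (p : ι → Prop)

/-- the subfamily -/
abbrev Sb (G : ι → Type) (p : ι → Prop) : {j // p j} → Type := fun j => G j.1

open Classical in
/-- the homomorphism which kills the factors outside of `p` -/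
noncomputable def kl : CoprodI G →* CoprodI (Sb G p) :=
  CoprodI.lift (fun j => if h : p j then (CoprodI.of (M := Sb G p) (i := ⟨j, h⟩)) else 1)

theorem kl_pos {j : ι} (h : p j) (x : G j) :
    kl p (CoprodI.of x) = CoprodI.of (M := Sb G p) (i := ⟨j, h⟩) x := by
  unfold kl
  rw [CoprodI.lift_of, dif_pos h]

theorem kl_neg {j : ι} (h : ¬ p j) (x : G j) : kl p (CoprodI.of x) = 1 := by
  unfold kl
  rw [CoprodI.lift_of, dif_neg h]
  rfl

/-- the section -/
def sec : CoprodI (Sb G p) →* CoprodI G :=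
  CoprodI.lift (fun j => (CoprodI.of (M := G) (i := j.1) : G j.1 →* CoprodI G))

theorem sec_of (j : {j // p j}) (x : Sb G p j) :
    sec p (CoprodI.of x) = CoprodI.of (M := G) (i := j.1) x := by
  unfold sec
  rw [CoprodI.lift_of]

theorem kl_sec (x : CoprodI (Sb G p)) : kl p (sec p x) = x := by
  have h : (kl p).comp (sec p) = MonoidHom.id (CoprodI (Sb G p)) := by
    apply CoprodI.ext_hom
    intro j
    ext x
    change kl p (sec p (CoprodI.of x)) = CoprodI.of x
    rw [sec_of]
    exact kl_pos p j.2 x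
  exact DFunLike.congr_fun h x

/-- the induced endomorphism -/
noncomputable def barHom (φ : Pure G) : CoprodI (Sb G p) →* CoprodI (Sb G p) :=
  ((kl p).comp φ.1.toMonoidHom).comp (sec p)

theorem barHom_kl (φ : Pure G) (x : CoprodI G) : barHom p φ (kl p x) = kl p (φ.1 x) := by
  have h : (barHom p φ).comp (kl p) = (kl p).comp φ.1.toMonoidHom := by
    apply CoprodI.ext_hom
    intro j
    ext x
    change barHom p φ (kl p (CoprodI.of x)) = kl p (φ.1 (CoprodI.of x))
    by_cases hj : p j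
    · rw [kl_pos p hj]
      change kl p (φ.1 (sec p (CoprodI.of _))) = _
      rw [sec_of]
    · rw [kl_neg p hj, map_one]
      obtain ⟨y, hy⟩ := φ.2 j
      have h1 : φ.1 (CoprodI.of x) ∈ cj y (fc G j) := by
        rw [← hy]
        exact ⟨_, ⟨x, rfl⟩, rfl⟩
      rw [mem_cj] at h1
      obtain ⟨g, hg⟩ := h1
      have h2 : φ.1 (CoprodI.of x) = y * CoprodI.of g * y⁻¹ := by
        rw [hg]
        group
      rw [h2, map_mul, map_mul, kl_neg p hj, mul_one, map_inv, mul_inv_cancel]
  exact DFunLike.congr_fun h x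

/-- the induced automorphism -/
noncomputable def bar : Pure G →* MulAut (CoprodI (Sb G p)) := mkAut (barHom p)
  (by
    intro φ ψ
    refine MonoidHom.ext fun x => ?_
    rw [← kl_sec p x]
    change barHom p φ (barHom p ψ (kl p (sec p x))) = _
    rw [barHom_kl, barHom_kl, barHom_kl]
    rfl)
  (by
    refine MonoidHom.ext fun x => ?_
    rw [← kl_sec p x, barHom_kl]
    rfl)

theorem bar_kl (φ : Pure G) (x : CoprodI G) : bar p φ (kl p x) = kl p (φ.1 x) := barHom_kl p φ x

theorem bar_mem (φ : Pure G) : bar p φ ∈ Pure (Sb G p) := by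
  intro j
  obtain ⟨y, hy⟩ := φ.2 j.1
  refine ⟨kl p y, ?_⟩
  have h1 : fc (Sb G p) j = (fc G j.1).map (kl p) := by
    ext z
    constructor
    · rintro ⟨x, rfl⟩
      exact ⟨_, ⟨x, rfl⟩, kl_pos p j.2 x⟩
    · rintro ⟨_, ⟨x, rfl⟩, rfl⟩
      exact ⟨x, (kl_pos p j.2 x).symm⟩
  have h2 : (fc (Sb G p) j).map (bar p φ).toMonoidHom =
      ((fc G j.1).map φ.1.toMonoidHom).map (kl p) := by
    rw [h1, Subgroup.map_map, Subgroup.map_map]
    congr 1
    refine MonoidHom.ext fun x => ?_
    exact bar_kl p φ x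
  rw [h2, hy, h1]
  unfold cj
  rw [Subgroup.map_map, Subgroup.map_map]
  congr 1
  refine MonoidHom.ext fun x => ?_
  change kl p (y * x * y⁻¹) = kl p y * kl p x * (kl p y)⁻¹
  rw [map_mul, map_mul, map_inv]

/-- the induced automorphism, as a member of the group -/
noncomputable def barP : Pure G →* Pure (Sb G p) := (bar p).codRestrict _ (bar_mem p)

theorem barP_inn (n : CoprodI G) : barP p (inn G n) = inn (Sb G p) (kl p n) := by
  apply Subtype.ext
  ext x
  change bar p (inn G n) x = kl p n * x * (kl p n)⁻¹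
  rw [← kl_sec p x, bar_kl]
  change kl p (n * sec p x * n⁻¹) = _
  rw [map_mul, map_mul, map_inv]

theorem bar_mp (β : ∀ j, MulAut (G j)) :
    bar p ⟨mp β, mp_mem β⟩ = mp (fun j : {j // p j} => (β j.1 : MulAut (Sb G p j))) := by
  apply aut_ext
  intro j x
  rw [mp_of]
  have h1 : CoprodI.of x = kl p (CoprodI.of (M := G) (i := j.1) x) := (kl_pos p j.2 x).symm
  rw [h1, bar_kl]
  change kl p (mp β (CoprodI.of (M := G) (i := j.1) x)) = _
  rw [mp_of, kl_pos p j.2]

end

section

variable {ι : Type} {G : ι → Type} [∀ i, Group (G i)] [∀ i, Nontrivial (G i)]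

/-- the index set has exactly two elements -/
def Two (ι : Type) : Prop := ∃ a b : ι, a ≠ b ∧ ∀ c, c = a ∨ c = b

theorem ed_of_centre (φ : Pure G) {n : CoprodI G} (hn : ∀ i, pt φ i = fv G i n) :
    inn G n⁻¹ * φ ∈ Ed G := by
  intro l
  obtain ⟨x, hx, hp⟩ := pt_spec (inn G n⁻¹ * φ) l
  rw [hx]
  rw [pt_inn_mul, hn, cg_smul', inv_mul_cancel] at hp
  rw [← cj_of_fv hp, cj_one]

theorem two_decomp (hι : Two ι) (φ : Pure G) :
    ∃ (n : CoprodI G) (β : ∀ j, MulAut (G j)), φ.1 = MulAut.conj n * mp β := by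
  obtain ⟨a, b, hab, hc⟩ := hι
  have hT := ST_isTree G
  obtain ⟨s, hs⟩ := exists_nx hT (pt_ne φ hab)
  have hsb : s ≠ pt φ b := by
    rintro rfl
    obtain ⟨x, _, hp⟩ := pt_spec φ a
    obtain ⟨y, _, hq⟩ := pt_spec φ b
    have h1 := hs.1
    rw [hp, hq] at h1
    obtain ⟨g, i, h⟩ := h1
    rcases h with ⟨h, _⟩ | ⟨h, _⟩
    · exact Sum.inr_ne_inl h
    · exact Sum.inr_ne_inl h
  have h1 : (ST G).dist s (pt φ a) = 1 := SimpleGraph.dist_eq_one_iff_adj.2 hs.1.symm
  have key : ∀ z, Nx (ST G) s (pt φ a) z → ¬ Nx (ST G) s (pt φ b) z := by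
    intro z hz hz'
    have h2 := hz.2
    rw [h1] at h2
    have h3 : (ST G).dist z (pt φ a) = 0 := by omega
    have h4 := (hT.connected.dist_eq_zero_iff).1 h3
    have h5 := hz'.2
    rw [h4] at h5
    have h6 := hs.2
    omega
  obtain ⟨n, hn⟩ := centre φ (s := s) (by
    intro i
    rcases hc i with rfl | rfl
    · exact hs.1.ne.symm
    · exact hsb) (by
    intro i j hij z hz hz'
    rcases hc i with rfl | rfl <;> rcases hc j with rfl | rfl
    · exact hij rfl
    · exact key z hz hz'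
    · exact key z hz' hz
    · exact hij rfl)
  obtain ⟨β, hβ⟩ := exists_mp (ed_of_centre φ hn)
  refine ⟨n, β, ?_⟩
  rw [hβ]
  change φ.1 = MulAut.conj n * (MulAut.conj n⁻¹ * φ.1)
  rw [map_inv, mul_inv_cancel_left]

theorem decomp_unique {a b : ι} (hab : a ≠ b) {n n' : CoprodI G} {β β' : ∀ j, MulAut (G j)}
    (h : MulAut.conj n * mp β = MulAut.conj n' * mp β') : n = n' ∧ β = β' := by
  have h1 : MulAut.conj (n'⁻¹ * n) = mp β' * (mp β)⁻¹ := by
    rw [map_mul, map_inv, eq_mul_inv_iff_mul_eq, mul_assoc, h, inv_mul_cancel_left]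
  have h2 : ∀ j, cj (n'⁻¹ * n) (fc G j) = fc G j := by
    intro j
    have h3 : (fc G j).map (mp β' * (mp β)⁻¹).toMonoidHom = fc G j := by
      rw [← map_inv, ← map_mul]
      exact mp_fc _ j
    rw [← h1] at h3
    exact h3
  have h3 := inn_trivial hab (h2 a) (h2 b)
  have h4 : n = n' := (inv_mul_eq_one.1 h3).symm
  subst h4
  exact ⟨rfl, mp_inj (mul_left_cancel h)⟩

/-- the homomorphism to the automorphisms of the factors -/
theorem exists_fac (hι : Two ι) : ∃ F : Pure G →* (∀ j, MulAut (G j)),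
    ∀ (φ : Pure G) (n : CoprodI G) (β : ∀ j, MulAut (G j)), φ.1 = MulAut.conj n * mp β →
      F φ = β := by
  obtain ⟨a, b, hab, _⟩ := id hι
  choose n β h using fun φ : Pure G => two_decomp hι φ
  refine ⟨
    { toFun := β
      map_one' := ?_
      map_mul' := ?_ }, ?_⟩
  · refine (decomp_unique hab (n := n 1) (n' := 1) ?_).2
    rw [← h, map_one, map_one, mul_one]
    rfl
  · intro φ ψ
    refine (decomp_unique hab (n := n (φ * ψ)) (n' := n φ * mp (β φ) (n ψ)) ?_).2
    rw [← h, map_mul MulAut.conj, map_mul mp, mul_assoc, ← mul_assoc (MulAut.conj _) (mp _),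
      ← aut_conj, mul_assoc, ← mul_assoc, ← h, ← h]
    rfl
  · intro φ m γ hφ
    exact (decomp_unique hab ((h φ).symm.trans hφ)).2

end

end Q171.OF
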