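import Pool.Agent.Q171.OF.Pts

/-!
# Factor automorphisms and partial conjugations
-/

set_option autoImplicit false

namespace Q171.OF

open Monoid CoprodI SimpleGraph
open Q171.NF (cj mem_cj cj_one cj_mul cj_self cj_inj ToConj map_cj map_mul_aut aut_conj)

section

variable {ι : Type} {G : ι → Type} [∀ i, Group (G i)]

/-- the homomorphism given by automorphisms of the factors -/
def mpHom (β : ∀ j, MulAut (G j)) : CoprodI G →* CoprodI G :=
  CoprodI.lift (fun j => CoprodI.of.comp (β j).toMonoidHom)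

theorem mpHom_of (β : ∀ j, MulAut (G j)) (j : ι) (x : G j) :
    mpHom β (CoprodI.of x) = CoprodI.of (β j x) := by
  unfold mpHom
  rw [CoprodI.lift_of]
  rfl

theorem mpHom_mul (β γ : ∀ j, MulAut (G j)) : (mpHom β).comp (mpHom γ) = mpHom (β * γ) := by
  apply CoprodI.ext_hom
  intro j
  ext x
  change mpHom β (mpHom γ (CoprodI.of x)) = mpHom (β * γ) (CoprodI.of x)
  rw [mpHom_of, mpHom_of, mpHom_of]
  rfl

theorem mpHom_one : mpHom (1 : ∀ j, MulAut (G j)) = MonoidHom.id _ := by
  apply CoprodI.ext_hom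
  intro j
  ext x
  change mpHom (1 : ∀ j, MulAut (G j)) (CoprodI.of x) = CoprodI.of x
  rw [mpHom_of]
  rfl

/-- an invertible family of endomorphisms gives automorphisms -/
def mkAut {N H : Type} [Group N] [Group H] (f : H → (N →* N))
    (hm : ∀ a b, (f a).comp (f b) = f (a * b)) (h1 : f 1 = MonoidHom.id _) : H →* MulAut N where
  toFun a :=
    { toFun := f a
      invFun := f a⁻¹
      left_inv := fun x => by
        change ((f a⁻¹).comp (f a)) x = x
        rw [hm, inv_mul_cancel, h1]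
        rfl
      right_inv := fun x => by
        change ((f a).comp (f a⁻¹)) x = x
        rw [hm, mul_inv_cancel, h1]
        rfl
      map_mul' := map_mul (f a) }
  map_one' := by
    ext x
    change f 1 x = x
    rw [h1]
    rfl
  map_mul' a b := by
    ext x
    change f (a * b) x = f a (f b x)
    rw [← hm]
    rfl

/-- the automorphisms given by automorphisms of the factors -/
def mp : (∀ j, MulAut (G j)) →* MulAut (CoprodI G) := mkAut mpHom mpHom_mul mpHom_one

theorem mp_of (β : ∀ j, MulAut (G j)) {j : ι} (x : G j) :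
    mp β (CoprodI.of x) = CoprodI.of (β j x) := mpHom_of β j x

theorem mp_fc (β : ∀ j, MulAut (G j)) (j : ι) : (fc G j).map (mp β).toMonoidHom = fc G j := by
  ext x
  constructor
  · rintro ⟨_, ⟨a, rfl⟩, rfl⟩
    exact ⟨β j a, (mp_of β a).symm⟩
  · rintro ⟨a, rfl⟩
    refine ⟨_, ⟨(β j)⁻¹ a, rfl⟩, ?_⟩
    change mp β (CoprodI.of ((β j)⁻¹ a)) = _
    rw [mp_of, MulAut.apply_inv_self]

theorem aut_ext {φ ψ : MulAut (CoprodI G)}
    (h : ∀ (j : ι) (x : G j), φ (CoprodI.of x) = ψ (CoprodI.of x)) : φ = ψ := by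
  apply MulEquiv.toMonoidHom_injective
  apply CoprodI.ext_hom
  intro j
  ext x
  exact h j x

theorem exists_mp {φ : MulAut (CoprodI G)}
    (h : ∀ j, (fc G j).map φ.toMonoidHom = fc G j) : ∃ β, mp β = φ := by
  have h1 : ∀ (j : ι) (a : G j), ∃ a' : G j, φ (CoprodI.of a) = CoprodI.of a' := by
    intro j a
    have h2 : φ (CoprodI.of a) ∈ (fc G j).map φ.toMonoidHom := ⟨_, ⟨a, rfl⟩, rfl⟩
    rw [h] at h2
    obtain ⟨a', ha'⟩ := h2
    exact ⟨a', ha'.symm⟩
  have h2 : ∀ (j : ι) (a : G j), ∃ a' : G j, φ (CoprodI.of a') = CoprodI.of a := by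
    intro j a
    have h3 : (CoprodI.of a : CoprodI G) ∈ fc G j := ⟨a, rfl⟩
    rw [← h] at h3
    obtain ⟨_, ⟨a', rfl⟩, ha'⟩ := h3
    exact ⟨a', ha'⟩
  choose f hf using h1
  choose g hg using h2
  refine ⟨fun j =>
    { toFun := f j
      invFun := g j
      left_inv := fun a => by
        apply CoprodI.of_injective j
        apply φ.injective
        rw [hg, hf]
      right_inv := fun a => by
        apply CoprodI.of_injective j
        rw [← hf, hg]
      map_mul' := fun a b => by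
        apply CoprodI.of_injective j
        rw [← hf, map_mul, map_mul, hf, hf, map_mul] }, ?_⟩
  apply aut_ext
  intro j x
  rw [mp_of, hf]
  rfl

theorem mp_inj : Function.Injective (mp : (∀ j, MulAut (G j)) →* MulAut (CoprodI G)) := by
  rw [injective_iff_map_eq_one]
  intro β hβ
  funext j
  ext x
  apply CoprodI.of_injective j
  rw [← mp_of, hβ]
  rfl

open Classical in
/-- the factor `k` is conjugated by `u⁻¹`, where `u` is in the factor `i` -/
noncomputable def pkHom (i k : ι) (u : G i) : CoprodI G →* CoprodI G :=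
  CoprodI.lift (fun j => if j = k then
    (MulAut.conj (CoprodI.of u⁻¹ : CoprodI G)).toMonoidHom.comp (CoprodI.of : G j →* CoprodI G)
      else CoprodI.of)

theorem pkHom_same (i k : ι) (u : G i) (x : G k) : pkHom i k u (CoprodI.of x) =
    CoprodI.of u⁻¹ * CoprodI.of x * (CoprodI.of u⁻¹)⁻¹ := by
  unfold pkHom
  rw [CoprodI.lift_of, if_pos rfl]
  rfl

theorem pkHom_ne (i k : ι) (u : G i) {j : ι} (hj : j ≠ k) (x : G j) :
    pkHom i k u (CoprodI.of x) = CoprodI.of x := by
  unfold pkHom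
  rw [CoprodI.lift_of, if_neg hj]

theorem pkHom_mul {i k : ι} (hik : i ≠ k) (u v : G i) :
    (pkHom i k u).comp (pkHom i k v) = pkHom i k (u * v) := by
  apply CoprodI.ext_hom
  intro j
  ext x
  change pkHom i k u (pkHom i k v (CoprodI.of x)) = pkHom i k (u * v) (CoprodI.of x)
  by_cases hj : j = k
  · subst hj
    rw [pkHom_same, map_mul, map_mul, map_inv (pkHom i j u), pkHom_same, pkHom_ne _ _ _ hik,
      pkHom_same, mul_inv_rev u v, map_mul]
    group
  · rw [pkHom_ne _ _ _ hj, pkHom_ne _ _ _ hj, pkHom_ne _ _ _ hj]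

theorem pkHom_one (i k : ι) : pkHom i k (1 : G i) = MonoidHom.id _ := by
  apply CoprodI.ext_hom
  intro j
  ext x
  change pkHom i k (1 : G i) (CoprodI.of x) = CoprodI.of x
  by_cases hj : j = k
  · subst hj
    rw [pkHom_same, inv_one, map_one, one_mul, inv_one, mul_one]
  · rw [pkHom_ne _ _ _ hj]

/-- the partial conjugations of the factor `k` by elements of the factor `i` -/
noncomputable def pk {i k : ι} (hik : i ≠ k) : G i →* MulAut (CoprodI G) :=
  mkAut (pkHom i k) (pkHom_mul hik) (pkHom_one i k)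

theorem pk_same {i k : ι} (hik : i ≠ k) (u : G i) (x : G k) : pk hik u (CoprodI.of x) =
    CoprodI.of u⁻¹ * CoprodI.of x * (CoprodI.of u⁻¹)⁻¹ := pkHom_same i k u x

theorem pk_ne {i k : ι} (hik : i ≠ k) (u : G i) {j : ι} (hj : j ≠ k) (x : G j) :
    pk hik u (CoprodI.of x) = CoprodI.of x := pkHom_ne i k u hj x

theorem pk_fc_same {i k : ι} (hik : i ≠ k) (u : G i) :
    (fc G k).map (pk hik u).toMonoidHom = cj (CoprodI.of u⁻¹) (fc G k) := by
  ext y
  rw [mem_cj]
  constructor
  · rintro ⟨_, ⟨x, rfl⟩, rfl⟩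
    refine ⟨x, ?_⟩
    change _ = (CoprodI.of u⁻¹)⁻¹ * (pk hik u (CoprodI.of x)) * CoprodI.of u⁻¹
    rw [pk_same]
    group
  · rintro ⟨x, hx⟩
    refine ⟨_, ⟨x, rfl⟩, ?_⟩
    change pk hik u (CoprodI.of x) = y
    rw [pk_same, hx]
    group

theorem pk_fc_ne {i k : ι} (hik : i ≠ k) (u : G i) {j : ι} (hj : j ≠ k) :
    (fc G j).map (pk hik u).toMonoidHom = fc G j := by
  ext y
  constructor
  · rintro ⟨_, ⟨x, rfl⟩, rfl⟩
    exact ⟨x, (pk_ne hik u hj x).symm⟩
  · rintro ⟨x, rfl⟩
    exact ⟨_, ⟨x, rfl⟩, pk_ne hik u hj x⟩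

theorem mp_pk {i k : ι} (hik : i ≠ k) (β : ∀ j, MulAut (G j)) (u : G i) :
    mp β * pk hik u = pk hik (β i u) * mp β := by
  apply aut_ext
  intro j x
  change mp β (pk hik u (CoprodI.of x)) = pk hik (β i u) (mp β (CoprodI.of x))
  by_cases hj : j = k
  · subst hj
    rw [pk_same, map_mul, map_mul, map_inv (mp β), mp_of, mp_of, pk_same, map_inv (β i)]
  · rw [pk_ne _ _ hj, mp_of, pk_ne _ _ hj]

theorem mp_mem (β : ∀ j, MulAut (G j)) : mp β ∈ Pure G := fun j => ⟨1, by
  rw [cj_one]; exact mp_fc β j⟩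

theorem pk_mem {i k : ι} (hik : i ≠ k) (u : G i) : pk hik u ∈ Pure G := by
  intro j
  by_cases hj : j = k
  · subst hj
    exact ⟨_, pk_fc_same hik u⟩
  · exact ⟨1, by rw [cj_one]; exact pk_fc_ne hik u hj⟩

/-- an inner automorphism which preserves two factors is trivial -/
theorem inn_trivial [∀ i, Nontrivial (G i)] {i j : ι} (hij : i ≠ j) {n : CoprodI G}
    (hi : cj n (fc G i) = fc G i) (hj : cj n (fc G j) = fc G j) : n = 1 := by
  have h1 : fv G i n = fv G i 1 := fv_of_cj (by rw [hi, cj_one])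
  have h2 : fv G j n = fv G j 1 := fv_of_cj (by rw [hj, cj_one])
  refine eq_one_of_two (u := fv G i 1) (v := fv G j 1) (fun h => hij (v1_eq.1 h).1) ?_ ?_
  · rw [cg_smul', mul_one]; exact h1
  · rw [cg_smul', mul_one]; exact h2

end

end Q171.OF
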