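import Pool.Agent.Q171.OF.Final

/-!
# Outer automorphisms which permute the conjugacy classes of the factors
-/

set_option autoImplicit false

namespace Q171.OF

open Monoid CoprodI SimpleGraph
open Pool.Agent.Y110.FJ (ClosedE)
open Q171.NF (cj mem_cj cj_one cj_mul cj_self cj_inj ToConj map_cj map_mul_aut aut_conj Hol)

section

variable {ι : Type} (G : ι → Type) [∀ i, Group (G i)]

/-- the automorphisms of the free product of the `G i` which permute the conjugacy classes of the
factors -/
def Sym : Subgroup (MulAut (CoprodI G)) where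
  carrier := {φ | ∃ σ : Equiv.Perm ι, ∀ i, ToConj φ (fc G i) (fc G (σ i))}
  one_mem' := ⟨1, fun i => ToConj.one _⟩
  mul_mem' := by
    rintro φ ψ ⟨σ, h1⟩ ⟨τ, h2⟩
    exact ⟨σ * τ, fun i => (h2 i).mul (h1 (τ i))⟩
  inv_mem' := by
    rintro φ ⟨σ, h⟩
    refine ⟨σ⁻¹, fun i => ?_⟩
    have h1 := (h (σ⁻¹ i)).inv
    have h2 : σ (σ⁻¹ i) = i := σ.apply_symm_apply i
    rwa [h2] at h1

variable {G}

theorem Pure_le_Sym : Pure G ≤ Sym G := fun _ h => ⟨1, h⟩

/-- the inner automorphisms -/
def innS (G : ι → Type) [∀ i, Group (G i)] : CoprodI G →* Sym G :=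
  MulAut.conj.codRestrict _ (fun n => Pure_le_Sym (conj_mem_pure n))

instance innSN : (innS G).range.Normal := by
  constructor
  rintro _ ⟨x, rfl⟩ φ
  refine ⟨φ.1 x, ?_⟩
  apply Subtype.ext
  change MulAut.conj (φ.1 x) = φ.1 * MulAut.conj x * φ.1⁻¹
  rw [aut_conj, mul_inv_cancel_right]

/-- the group of outer automorphisms which permute the classes of the factors -/
abbrev SOut (G : ι → Type) [∀ i, Group (G i)] : Type := Sym G ⧸ (innS G).range

/-- the homomorphism of the group of outer automorphisms preserving the classes -/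
def toS (G : ι → Type) [∀ i, Group (G i)] : POut G →* SOut G :=
  QuotientGroup.lift _ ((QuotientGroup.mk' _).comp (Subgroup.inclusion Pure_le_Sym)) (by
    rintro _ ⟨n, rfl⟩
    change ((Subgroup.inclusion Pure_le_Sym (inn G n) : Sym G) : SOut G) = 1
    rw [QuotientGroup.eq_one_iff]
    exact ⟨n, rfl⟩)

theorem toS_inj : Function.Injective (toS G) := by
  rw [injective_iff_map_eq_one]
  intro q hq
  induction q using QuotientGroup.induction_on with
  | H φ =>
    have h1 : ((Subgroup.inclusion Pure_le_Sym φ : Sym G) : SOut G) = 1 := hq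
    rw [QuotientGroup.eq_one_iff] at h1
    obtain ⟨n, hn⟩ := h1
    rw [QuotientGroup.eq_one_iff]
    refine ⟨n, Subtype.ext ?_⟩
    have h2 : (innS G n).1 = (Subgroup.inclusion Pure_le_Sym φ : Sym G).1 :=
      congrArg Subtype.val hn
    exact h2

theorem toS_index [Finite ι] : (toS G).range.FiniteIndex := by
  classical
  have hfin : Finite (SOut G ⧸ (toS G).range) := by
    let f : Equiv.Perm ι → SOut G ⧸ (toS G).range := fun σ =>
      if h : ∃ φ : Sym G, ∀ i, ToConj φ.1 (fc G i) (fc G (σ i)) then
        ((h.choose : SOut G) : SOut G ⧸ (toS G).range) else ((1 : SOut G) : SOut G ⧸ _)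
    refine Finite.of_surjective f ?_
    intro q
    induction q using QuotientGroup.induction_on with
    | H q =>
      induction q using QuotientGroup.induction_on with
      | H φ =>
        obtain ⟨σ, hσ⟩ := φ.2
        have hex : ∃ φ : Sym G, ∀ i, ToConj φ.1 (fc G i) (fc G (σ i)) := ⟨φ, hσ⟩
        refine ⟨σ, ?_⟩
        have h1 : f σ = ((hex.choose : SOut G) : SOut G ⧸ (toS G).range) := dif_pos hex
        rw [h1, QuotientGroup.eq]
        have h2 : hex.choose.1⁻¹ * φ.1 ∈ Pure G := by
          intro i
          have h3 := (hex.choose_spec i).inv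
          exact (hσ i).mul h3
        exact ⟨((⟨_, h2⟩ : Pure G) : POut G), rfl⟩
  exact Subgroup.finiteIndex_of_finite_quotient

end

/-- **outer automorphisms of free products of three groups** -/
theorem main {C : ∀ (G : Type) [Group G], Prop} (hC : ClosedE C) (G : Fin 3 → Type)
    [∀ i, Group (G i)] [∀ i, Nontrivial (G i)] : C (SOut G) ↔ ∀ i, C (Hol (G i)) := by
  constructor
  · intro h
    exact Hol_of_POut hC (hC.base.of_injective _ _ (toS G) toS_inj h)
  · intro h
    refine hC.base.finiteIndex _ (toS G).range toS_index ?_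
    exact hC.base.of_injective _ _ (MonoidHom.ofInjective (f := toS G) toS_inj).symm.toMonoidHom
      (MonoidHom.ofInjective (f := toS G) toS_inj).symm.injective (POut_mem hC h)

end Q171.OF
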