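import Pool.Agent.Q171.OF.Star
import Pool.Agent.Q171.NF.Fac

/-!
# Automorphisms of a free product which preserve the conjugacy classes of the factors
-/

set_option autoImplicit false

namespace Q171.OF

open Monoid CoprodI SimpleGraph
open Q171.NF (cj mem_cj cj_one cj_mul cj_self cj_inj ToConj map_cj map_mul_aut aut_conj)

section

variable {ι : Type} {G : ι → Type} [∀ i, Group (G i)]

theorem mem_fv' {x n : CoprodI G} {i : ι} : x • fv G i n = fv G i n ↔ x ∈ cj n (fc G i) := by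
  rw [mem_fv, mem_cj]

theorem fv_of_cj [∀ i, Nontrivial (G i)] {i j : ι} {x y : CoprodI G}
    (h : cj x (fc G i) = cj y (fc G j)) : fv G i x = fv G j y := by
  by_contra hne
  obtain ⟨g, hg⟩ := exists_ne (1 : G i)
  have h1 : x * CoprodI.of g * x⁻¹ ∈ cj x (fc G i) := by
    rw [mem_cj]
    refine ⟨g, ?_⟩
    group
  have h2 := mem_fv'.2 h1
  rw [h] at h1
  have h3 := eq_one_of_two hne h2 (mem_fv'.2 h1)
  apply hg
  apply CoprodI.of_injective i
  rw [map_one]
  have h4 : CoprodI.of g = x⁻¹ * (x * CoprodI.of g * x⁻¹) * x := by group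
  rw [h4, h3]
  group

theorem cj_of_fv {i j : ι} {x y : CoprodI G} (h : fv G i x = fv G j y) :
    cj x (fc G i) = cj y (fc G j) := by
  obtain ⟨rfl, h'⟩ := v1_eq.1 h
  have h1 : y = x * (x⁻¹ * y) := by group
  rw [h1, cj_mul, cj_self h']

variable (G)

/-- the automorphisms which preserve the conjugacy classes of the factors -/
def Pure : Subgroup (MulAut (CoprodI G)) where
  carrier := {φ | ∀ i, ToConj φ (fc G i) (fc G i)}
  one_mem' := fun i => ToConj.one _
  mul_mem' := fun h1 h2 i => (h2 i).mul (h1 i)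
  inv_mem' := fun h i => (h i).inv

variable {G}

/-- the fixed vertex of the image of the factor `i` -/
noncomputable def pt (φ : Pure G) (i : ι) : SV G := fv G i (φ.2 i).choose

theorem pt_eq [∀ i, Nontrivial (G i)] (φ : Pure G) {i : ι} {x : CoprodI G}
    (h : (fc G i).map φ.1.toMonoidHom = cj x (fc G i)) : pt φ i = fv G i x := by
  apply fv_of_cj
  rw [← h]
  exact (φ.2 i).choose_spec.symm

theorem pt_spec (φ : Pure G) (i : ι) : ∃ x, (fc G i).map φ.1.toMonoidHom = cj x (fc G i) ∧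
    pt φ i = fv G i x := ⟨_, (φ.2 i).choose_spec, rfl⟩

/-- the elements of the image of the factor `i` fix its vertex -/
theorem fix_pt (φ : Pure G) (i : ι) (g : G i) : φ.1 (CoprodI.of g) • pt φ i = pt φ i := by
  obtain ⟨x, hx, hp⟩ := pt_spec φ i
  rw [hp, mem_fv', ← hx]
  exact ⟨_, ⟨g, rfl⟩, rfl⟩

theorem fix_pt' (φ : Pure G) (i : ι) {h : CoprodI G} (hh : h • pt φ i = pt φ i) :
    ∃ g : G i, h = φ.1 (CoprodI.of g) := by
  obtain ⟨x, hx, hp⟩ := pt_spec φ i
  rw [hp, mem_fv', ← hx] at hh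
  obtain ⟨_, ⟨g, rfl⟩, h1⟩ := hh
  exact ⟨g, h1.symm⟩

theorem pt_ne [∀ i, Nontrivial (G i)] (φ : Pure G) {i j : ι} (hij : i ≠ j) : pt φ i ≠ pt φ j := by
  obtain ⟨x, _, hp⟩ := pt_spec φ i
  obtain ⟨y, _, hq⟩ := pt_spec φ j
  rw [hp, hq]
  intro h
  exact hij (v1_eq.1 h).1

theorem conj_mem_pure (n : CoprodI G) : MulAut.conj n ∈ Pure G := fun i => ⟨n, rfl⟩

/-- the inner automorphisms -/
def inn (G : ι → Type) [∀ i, Group (G i)] : CoprodI G →* Pure G :=
  MulAut.conj.codRestrict _ conj_mem_pure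

theorem inn_conj (φ : Pure G) (n : CoprodI G) : φ * inn G n = inn G (φ.1 n) * φ :=
  Subtype.ext (aut_conj φ.1 n)

theorem pt_mul [∀ i, Nontrivial (G i)] (φ ψ : Pure G) {i : ι} {y : CoprodI G}
    (h : (fc G i).map ψ.1.toMonoidHom = cj y (fc G i)) : pt (φ * ψ) i = φ.1 y • pt φ i := by
  obtain ⟨x, hx, hp⟩ := pt_spec φ i
  rw [hp, cg_smul']
  apply pt_eq
  have h1 := map_mul_aut φ.1 ψ.1 (fc G i)
  change (fc G i).map (φ.1 * ψ.1).toMonoidHom = _
  rw [h1, h, map_cj, hx, cj_mul]

theorem pt_inn_mul [∀ i, Nontrivial (G i)] (φ : Pure G) (n : CoprodI G) (i : ι) :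
    pt (inn G n * φ) i = n • pt φ i := by
  rw [← φ.1.apply_symm_apply n]
  have h1 := inn_conj φ (φ.1.symm n)
  rw [← h1]
  exact pt_mul φ (inn G _) rfl

/-! ### the centre lemma -/

/-- the path of a reduced word -/
theorem word_path [∀ i, Nontrivial (G i)] (φ : Pure G) {s : SV G} (hs : ∀ i, s ≠ pt φ i)
    (hdir : ∀ i j, i ≠ j → ∀ z, Nx (ST G) s (pt φ i) z → ¬ Nx (ST G) s (pt φ j) z) :
    ∀ {i j : ι} (w : NeWord G i j), s ≠ φ.1 w.prod • s ∧
      (∀ z, Nx (ST G) s (pt φ i) z → Nx (ST G) s (φ.1 w.prod • s) z) ∧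
      (∀ z, Nx (ST G) s (pt φ j) z → Nx (ST G) (φ.1 w.prod • s) s (φ.1 w.prod • z)) ∧
      2 * w.toList.length ≤ (ST G).dist s (φ.1 w.prod • s) ∧
      (w.toList.length = 1 → (ST G).dist s (φ.1 w.prod • s) = 2 * (ST G).dist s (pt φ i) ∧
        φ.1 w.prod • pt φ i = pt φ i) := by
  have hT := ST_isTree G
  have hadj := ST_adj_smul (G := G)
  intro i j w
  induction w with
  | @singleton i g hg =>
    rw [NeWord.prod_singleton]
    obtain ⟨h, hh⟩ : ∃ h, h = φ.1 (CoprodI.of g) := ⟨_, rfl⟩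
    have hh1 : h ≠ 1 := by
      rw [hh]
      intro h1
      apply hg
      apply CoprodI.of_injective i
      rw [map_one]
      exact φ.1.injective (h1.trans (map_one φ.1).symm)
    have hfix : h • pt φ i = pt φ i := by rw [hh]; exact fix_pt φ i g
    rw [← hh]
    obtain ⟨z, hz⟩ := exists_nx hT (hs i).symm
    have hz' := nx_smul hT hadj h hz
    rw [hfix] at hz'
    have hne : z ≠ h • z := by
      intro h1
      exact hh1 (eq_one_of_two hz.1.ne hfix h1.symm)
    obtain ⟨h1, h2⟩ := concat hT hz hz' hne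
    have hfix' : h⁻¹ • pt φ i = pt φ i := by rw [inv_smul_eq_iff, hfix]
    have hd : (ST G).dist (pt φ i) (h • s) = (ST G).dist s (pt φ i) := by
      have h3 := dist_smul hT hadj h (pt φ i) s
      rw [hfix] at h3
      rw [h3, dist_comm]
    have hpos : 0 < (ST G).dist s (pt φ i) := (hT.connected.pos_dist_of_ne (hs i))
    refine ⟨?_, h2, ?_, ?_, ?_⟩
    · intro h3
      rw [← h3, SimpleGraph.dist_self] at h1
      omega
    · intro z' hz''
      -- apply the first part to the inverse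
      have hzi := nx_smul hT hadj h⁻¹ hz
      rw [hfix'] at hzi
      have hne' : z ≠ h⁻¹ • z := by
        intro h3
        apply hne
        rw [eq_comm, inv_smul_eq_iff] at h3
        exact h3
      obtain ⟨_, h4⟩ := concat hT hz hzi hne'
      have h5 := nx_smul hT hadj h (h4 z' hz'')
      rwa [smul_inv_smul] at h5
    · rw [h1, hd]
      simp only [NeWord.toList, List.length_singleton]
      omega
    · intro _
      exact ⟨by rw [h1, hd]; ring, hfix⟩
  | @append i j k l w1 hne w2 ih1 ih2 =>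
    rw [NeWord.append_prod, map_mul, mul_smul]
    obtain ⟨a1, a2, a3, a4, a5⟩ := ih1
    obtain ⟨b1, b2, b3, b4, b5⟩ := ih2
    obtain ⟨x, hx⟩ : ∃ x, x = φ.1 w1.prod := ⟨_, rfl⟩
    obtain ⟨y, hy⟩ : ∃ y, y = φ.1 w2.prod := ⟨_, rfl⟩
    rw [← hx] at a1 a2 a3 a4 a5 ⊢
    rw [← hy] at b1 b2 b3 b4 b5 ⊢
    obtain ⟨z, hz⟩ := exists_nx hT (hs j)
    obtain ⟨z', hz'⟩ := exists_nx hT (hs k)
    have hzz : z ≠ z' := by
      intro h
      exact hdir j k hne z hz (h ▸ hz')
    have c1 := a3 z hz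
    have c2 := nx_smul hT hadj x (b2 z' hz')
    have hzz' : x • z ≠ x • z' := fun h => hzz (MulAction.injective x h)
    obtain ⟨d1, d2⟩ := concat hT c1 c2 hzz'
    obtain ⟨d1', d2'⟩ := concat hT c2 c1 hzz'.symm
    have hd : (ST G).dist (x • s) (x • y • s) = (ST G).dist s (y • s) := dist_smul hT hadj x _ _
    have hl1 : 0 < w1.toList.length := List.length_pos_of_ne_nil (NeWord.toList_ne_nil w1)
    have hl2 : 0 < w2.toList.length := List.length_pos_of_ne_nil (NeWord.toList_ne_nil w2)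
    rw [hd] at d1
    refine ⟨?_, ?_, ?_, ?_, ?_⟩
    · intro h
      rw [← h, SimpleGraph.dist_self] at d1
      omega
    · intro z'' h''
      exact d2 z'' (a2 z'' h'')
    · intro z'' h''
      rw [mul_smul]
      exact d2' _ (nx_smul hT hadj x (b3 z'' h''))
    · simp only [NeWord.toList, List.length_append]
      omega
    · intro h
      exfalso
      simp only [NeWord.toList, List.length_append] at h
      omega

/-- **the centre lemma** -/
theorem centre [∀ i, Nontrivial (G i)] (φ : Pure G) {s : SV G} (hs : ∀ i, s ≠ pt φ i)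
    (hdir : ∀ i j, i ≠ j → ∀ z, Nx (ST G) s (pt φ i) z → ¬ Nx (ST G) s (pt φ j) z) :
    ∃ n : CoprodI G, ∀ i, pt φ i = fv G i n := by
  classical
  have hT := ST_isTree G
  have hw := fun {i j : ι} (w : NeWord G i j) => word_path φ hs hdir w
  have hword : ∀ x : CoprodI G, x ≠ 1 → ∃ (i j : ι) (w : NeWord G i j), φ.1 w.prod = x := by
    intro x hx
    obtain ⟨y, rfl⟩ := φ.1.surjective x
    have hy : y ≠ 1 := fun h => hx (by rw [h, map_one])
    have h0 : (Word.equiv y).prod = y := (Word.equiv (M := G)).left_inv y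
    have h1 : Word.equiv y ≠ Word.empty := by
      intro h
      rw [h, Word.prod_empty] at h0
      exact hy h0.symm
    obtain ⟨i, j, w, hw⟩ := NeWord.of_word _ h1
    refine ⟨i, j, w, ?_⟩
    change φ.1 w.toWord.prod = φ.1 y
    rw [hw, h0]
  rcases cg_cases s with ⟨n, rfl⟩ | ⟨j, n, rfl⟩
  · refine ⟨n, fun j => ?_⟩
    obtain ⟨g, hg⟩ := exists_ne (1 : G j)
    have hx1 : n * CoprodI.of g * n⁻¹ ≠ 1 := by
      intro h
      apply hg
      apply CoprodI.of_injective j
      rw [map_one]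
      have h4 : CoprodI.of g = n⁻¹ * (n * CoprodI.of g * n⁻¹) * n := by group
      rw [h4, h]
      group
    have hfix : (n * CoprodI.of g * n⁻¹) • fv G j n = fv G j n := by
      rw [mem_fv]
      refine ⟨g, ?_⟩
      group
    obtain ⟨i, k, w, hwx⟩ := hword _ hx1
    obtain ⟨e1, e2, e3, e4, e5⟩ := hw w
    rw [hwx] at e1 e2 e3 e4 e5
    have hd : (ST G).dist (cv G n) ((n * CoprodI.of g * n⁻¹) • cv G n) ≤ 2 := by
      have h1 := cg_adj (E := ⊥) (P := fun i => fc G i) n j
      have h2 := ST_adj_smul (n * CoprodI.of g * n⁻¹) _ _ h1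
      have h3 : (n * CoprodI.of g * n⁻¹) • v1 ⊥ (fun i => fc G i) j n =
        v1 ⊥ (fun i => fc G i) j n := hfix
      rw [h3] at h2
      exact dist_le (Walk.cons h1 (Walk.cons h2.symm Walk.nil))
    have hl : 0 < w.toList.length := List.length_pos_of_ne_nil (NeWord.toList_ne_nil w)
    have e4' : 2 * w.toList.length ≤
        (ST G).dist (cv G n) ((n * CoprodI.of g * n⁻¹) • cv G n) := e4
    obtain ⟨f1, f2⟩ := e5 (by omega)
    by_contra hne
    have hij : fv G j n = pt φ i := by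
      by_contra hne'
      exact hx1 (eq_one_of_two hne' hfix f2)
    obtain ⟨x, _, hp⟩ := pt_spec φ i
    have h6 := hij
    rw [hp] at h6
    obtain ⟨rfl, _⟩ := v1_eq.1 h6
    exact hne hij.symm
  · exfalso
    obtain ⟨g, hg⟩ := exists_ne (1 : G j)
    have hx1 : n * CoprodI.of g * n⁻¹ ≠ 1 := by
      intro h
      apply hg
      apply CoprodI.of_injective j
      rw [map_one]
      have h4 : CoprodI.of g = n⁻¹ * (n * CoprodI.of g * n⁻¹) * n := by group
      rw [h4, h]
      group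
    have hfix : (n * CoprodI.of g * n⁻¹) • fv G j n = fv G j n := by
      rw [mem_fv]
      refine ⟨g, ?_⟩
      group
    obtain ⟨i, k, w, hwx⟩ := hword _ hx1
    obtain ⟨e1, _⟩ := hw w
    rw [hwx] at e1
    exact e1 hfix.symm

end

end Q171.OF
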