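import Pool.Agent.Q171.OF.Crit
import Pool.Agent.Q171.OF.Geom
import Pool.Agent.Q171.NF.Tree

/-!
# The tree of a free product of a family of groups
-/

set_option autoImplicit false

namespace Q171.OF

open Monoid CoprodI SimpleGraph

section

variable {ι : Type} {G : ι → Type} [∀ i, Group (G i)]

/-- the inclusion of a factor -/
abbrev fc (G : ι → Type) [∀ i, Group (G i)] (i : ι) : Subgroup (CoprodI G) :=
  (CoprodI.of : G i →* CoprodI G).range

open Classical in
/-- the number of letters of the inverse -/
noncomputable def wl (n : CoprodI G) : ℕ := (Word.equiv n⁻¹).toList.length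

open Classical in
theorem len_rcons {i : ι} (p : Word.Pair G i) :
    (Word.rcons p).toList.length = p.tail.toList.length + if p.head = 1 then 0 else 1 := by
  unfold Word.rcons
  by_cases h : p.head = 1
  · rw [dif_pos h, if_pos h, add_zero]
  · rw [dif_neg h, if_neg h]
    rfl

open Classical in
theorem wl_key (i : ι) (g : CoprodI G) : ∃ (h : G i) (k : ℕ),
    (∀ m : G i, wl (g * CoprodI.of m) = k + if m⁻¹ * h = 1 then 0 else 1) ∧
    (h ≠ 1 → (Word.equiv g⁻¹).fstIdx = some i) ∧
    (h = 1 → (Word.equiv g⁻¹).fstIdx ≠ some i) := by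
  refine ⟨(Word.equivPair i (Word.equiv g⁻¹)).head,
    (Word.equivPair i (Word.equiv g⁻¹)).tail.toList.length, ?_, ?_, ?_⟩
  · intro m
    unfold wl
    have h1 : Word.equiv (g * CoprodI.of m)⁻¹ = (CoprodI.of m⁻¹ : CoprodI G) • Word.equiv g⁻¹ := by
      rw [mul_inv_rev, map_inv]
      exact mul_smul (CoprodI.of m : CoprodI G)⁻¹ g⁻¹ (Word.empty : Word G)
    rw [h1, Word.of_smul_def, len_rcons]
  · intro h
    by_contra h1
    apply h
    rw [Word.equivPair_eq_of_fstIdx_ne h1]
  · intro h h1
    have h2 := len_rcons (Word.equivPair i (Word.equiv g⁻¹))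
    rw [if_pos h, add_zero, ← Word.equivPair_symm, Equiv.symm_apply_apply] at h2
    have h3 := (Word.equivPair i (Word.equiv g⁻¹)).fstIdx_ne
    have h4 : Word.rcons (Word.equivPair i (Word.equiv g⁻¹)) =
        (Word.equivPair i (Word.equiv g⁻¹)).tail := by
      unfold Word.rcons
      rw [dif_pos h]
    rw [← Word.equivPair_symm, Equiv.symm_apply_apply] at h4
    rw [← h4] at h3
    exact h3 h1

theorem crit : Crit (⊥ : Subgroup (CoprodI G)) (fun i => fc G i) wl where
  le := fun _ => bot_le
  inv := by
    intro g e he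
    rw [Subgroup.mem_bot] at he
    rw [he, mul_one]
  uniq := by
    classical
    rintro i g _ ⟨m, rfl⟩ h1 h2
    obtain ⟨h, k, hk, hk1, hk2⟩ := wl_key i g
    have h3 := hk 1
    have h4 := hk m
    have h5 := hk h
    have h6 := h1 _ ⟨h, rfl⟩
    rw [map_one, mul_one, inv_one, one_mul] at h3
    rw [inv_mul_cancel, if_pos rfl] at h5
    have h7 : h = 1 := by
      by_contra hne
      rw [if_neg hne] at h3
      omega
    subst h7
    rw [if_pos rfl] at h3
    by_cases hm : m⁻¹ * 1 = 1
    · rw [mul_one, inv_eq_one] at hm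
      rw [hm, map_one]
      exact one_mem _
    · rw [if_neg hm] at h4
      omega
  one := by
    classical
    intro g i j hi hj
    have key : ∀ i : ι, (∃ p ∈ fc G i, wl (g * p) < wl g) → (Word.equiv g⁻¹).fstIdx = some i := by
      rintro i ⟨_, ⟨m, rfl⟩, hlt⟩
      obtain ⟨h, k, hk, hk1, hk2⟩ := wl_key i g
      apply hk1
      rintro rfl
      have h3 := hk 1
      have h4 := hk m
      rw [map_one, mul_one, inv_one, one_mul, if_pos rfl] at h3
      omega
    have h1 := key i hi
    rw [key j hj] at h1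
    exact (Option.some_injective _ h1).symm
  base := by
    classical
    intro g hg
    rw [Subgroup.mem_bot]
    have h1 : Word.equiv g⁻¹ = Word.empty := by
      have h2 : ∀ i, (Word.equiv g⁻¹).fstIdx ≠ some i := by
        intro i
        obtain ⟨h, k, hk, hk1, hk2⟩ := wl_key i g
        apply hk2
        by_contra hne
        have h3 := hk 1
        have h5 := hk h
        have h6 := hg i _ ⟨h, rfl⟩
        rw [map_one, mul_one, inv_one, one_mul, if_neg hne] at h3
        rw [inv_mul_cancel, if_pos rfl] at h5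
        omega
      revert h2
      generalize Word.equiv g⁻¹ = w
      intro h2
      induction w using Word.consRecOn with
      | empty => rfl
      | cons i m w h3 h4 _ => exact absurd (Word.fstIdx_cons m w h3 h4) (h2 i)
    have h2 : (Word.equiv g⁻¹).prod = g⁻¹ := (Word.equiv (M := G)).left_inv g⁻¹
    rw [h1, Word.prod_empty] at h2
    exact inv_eq_one.1 h2.symm

variable (G)

/-- the vertices of the tree of the free product -/
abbrev SV : Type := CVt (⊥ : Subgroup (CoprodI G)) (fun i => fc G i)

/-- the tree of the free product -/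
abbrev ST : SimpleGraph (SV G) := cg (⊥ : Subgroup (CoprodI G)) (fun i => fc G i)

/-- a vertex of type `i` -/
abbrev fv (i : ι) (n : CoprodI G) : SV G := v1 ⊥ (fun i => fc G i) i n

/-- a vertex of central type -/
abbrev cv (n : CoprodI G) : SV G := v0 ⊥ (fun i => fc G i) n

theorem ST_isTree : (ST G).IsTree := crit.isTree

variable {G}

theorem ST_adj_smul (a : CoprodI G) (u v : SV G) (h : (ST G).Adj u v) :
    (ST G).Adj (a • u) (a • v) := cg_adj_smul a h

/-- an element fixing a vertex of central type is trivial -/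
theorem eq_one_of_cv {x n : CoprodI G} (h : x • cv G n = cv G n) : x = 1 := by
  rw [cg_smul, v0_eq, Subgroup.mem_bot] at h
  have h1 : (x * n)⁻¹ * n = n⁻¹ * x⁻¹ * n := by group
  rw [h1] at h
  have h2 : x⁻¹ = 1 := by
    have h3 : n⁻¹ * x⁻¹ = n⁻¹ := by
      rw [← mul_inv_eq_one (a := n⁻¹ * x⁻¹) (b := n⁻¹), inv_inv]
      exact h
    exact mul_eq_left.1 h3
  exact inv_eq_one.1 h2

theorem mem_fv {x n : CoprodI G} {i : ι} : x • fv G i n = fv G i n ↔ n⁻¹ * x * n ∈ fc G i := by
  rw [cg_smul', eq_comm, v1_eq, ← mul_assoc]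
  simp

/-- an element fixing two vertices is trivial -/
theorem eq_one_of_two {x : CoprodI G} {u v : SV G} (huv : u ≠ v) (hu : x • u = u)
    (hv : x • v = v) : x = 1 := by
  obtain ⟨w, hw1, hw2⟩ := Q171.NF.fixed_edge (ST_isTree G) (fun z => x • z)
    (MulAction.injective _) (fun a b h => ST_adj_smul x _ _ h) hu hv huv
  obtain ⟨g, i, h⟩ := hw1
  rcases h with ⟨rfl, rfl⟩ | ⟨rfl, rfl⟩
  · exact eq_one_of_cv hu
  · exact eq_one_of_cv hw2

end

end Q171.OF
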