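import Pool.Agent.Q171.OF.Maps

/-!
# The tree of the outer automorphisms of a free product of three groups
-/

set_option autoImplicit false

namespace Q171.OF

open Monoid CoprodI SimpleGraph
open Q171.NF (cj mem_cj cj_one cj_mul cj_self cj_inj ToConj map_cj map_mul_aut aut_conj)

section

variable {ι : Type} {G : ι → Type} [∀ i, Group (G i)]

/-- the neighbours of a vertex of type `i` are permuted transitively -/
theorem transitive (φ : Pure G) (i : ι) {z z' : SV G} (hz : (ST G).Adj (pt φ i) z)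
    (hz' : (ST G).Adj (pt φ i) z') : ∃ h : CoprodI G, h • pt φ i = pt φ i ∧ h • z = z' := by
  obtain ⟨x, _, hp⟩ := pt_spec φ i
  have key : ∀ z, (ST G).Adj (fv G i x) z → ∃ g : CoprodI G, z = cv G g ∧ fv G i g = fv G i x := by
    rintro z ⟨g, j, h⟩
    rcases h with ⟨h, _⟩ | ⟨rfl, h⟩
    · exact (Sum.inr_ne_inl h).elim
    · obtain ⟨rfl, h'⟩ := v1_eq.1 h
      exact ⟨g, rfl, h.symm⟩
  rw [hp] at hz hz' ⊢
  obtain ⟨g, rfl, hg⟩ := key z hz
  obtain ⟨g', rfl, hg'⟩ := key z' hz'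
  refine ⟨g' * g⁻¹, ?_, ?_⟩
  · rw [← hg, cg_smul']
    have : g' * g⁻¹ * g = g' := by group
    rw [this]
    exact hg'.trans hg.symm
  · rw [cg_smul]
    have : g' * g⁻¹ * g = g' := by group
    rw [this]

/-- the stabilizer of the vertex of type `i` -/
def St (G : ι → Type) [∀ i, Group (G i)] (i : ι) : Subgroup (Pure G) where
  carrier := {ψ | ∀ j, ∃ y ∈ fc G i, (fc G j).map ψ.1.toMonoidHom = cj y (fc G j)}
  one_mem' := fun j => ⟨1, one_mem _, by rw [cj_one]; exact Subgroup.map_id _⟩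
  mul_mem' := by
    intro φ ψ h1 h2 j
    obtain ⟨x, hx, hx'⟩ := h1 j
    obtain ⟨y, hy, hy'⟩ := h2 j
    obtain ⟨z, hz, hz'⟩ := h1 i
    refine ⟨φ.1 y * x, mul_mem ?_ hx, ?_⟩
    · rw [cj_self hz] at hz'
      rw [← hz']
      exact ⟨y, hy, rfl⟩
    · change (fc G j).map (φ.1 * ψ.1).toMonoidHom = _
      rw [map_mul_aut, hy', map_cj, hx', cj_mul]
  inv_mem' := by
    intro φ h j
    obtain ⟨x, hx, hx'⟩ := h j
    obtain ⟨z, hz, hz'⟩ := h i
    rw [cj_self hz] at hz'
    refine ⟨φ.1⁻¹ x⁻¹, ?_, ?_⟩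
    · have h1 : x⁻¹ ∈ (fc G i).map φ.1.toMonoidHom := by rw [hz']; exact inv_mem hx
      obtain ⟨t, ht, ht'⟩ := h1
      have h2 : φ.1 t = x⁻¹ := ht'
      rw [← h2, MulAut.inv_apply_self]
      exact ht
    · change (fc G j).map (φ.1⁻¹).toMonoidHom = _
      have h2 : fc G j = cj x⁻¹ ((fc G j).map φ.1.toMonoidHom) := by
        rw [hx', ← cj_mul, inv_mul_cancel, cj_one]
      have h3 : (fc G j).map (φ.1⁻¹).toMonoidHom =
          (cj x⁻¹ ((fc G j).map φ.1.toMonoidHom)).map (φ.1⁻¹).toMonoidHom := by rw [← h2]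
      rw [h3, map_cj, ← map_mul_aut, inv_mul_cancel]
      congr 1
      exact Subgroup.map_id _

/-- the stabilizer of the central vertex -/
def Ed (G : ι → Type) [∀ i, Group (G i)] : Subgroup (Pure G) where
  carrier := {ψ | ∀ j, (fc G j).map ψ.1.toMonoidHom = fc G j}
  one_mem' := fun j => Subgroup.map_id _
  mul_mem' := by
    intro φ ψ h1 h2 j
    change (fc G j).map (φ.1 * ψ.1).toMonoidHom = _
    rw [map_mul_aut, h2 j, h1 j]
  inv_mem' := by
    intro φ h j
    change (fc G j).map (φ.1⁻¹).toMonoidHom = _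
    have h3 : (fc G j).map (φ.1⁻¹).toMonoidHom =
        ((fc G j).map φ.1.toMonoidHom).map (φ.1⁻¹).toMonoidHom := by rw [h j]
    rw [h3, ← map_mul_aut, inv_mul_cancel]
    exact Subgroup.map_id _

instance innN : (inn G).range.Normal := by
  constructor
  rintro _ ⟨x, rfl⟩ φ
  refine ⟨φ.1 x, ?_⟩
  rw [inn_conj φ x, mul_inv_cancel_right]

/-- the outer automorphisms which preserve the classes of the factors -/
abbrev POut (G : ι → Type) [∀ i, Group (G i)] : Type := Pure G ⧸ (inn G).range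

/-- distances of the vertices -/
noncomputable def D (φ : Pure G) (i j : ι) : ℕ := (ST G).dist (pt φ i) (pt φ j)

theorem D_comm (φ : Pure G) (i j : ι) : D φ i j = D φ j i := dist_comm

variable [∀ i, Nontrivial (G i)]

theorem D_pos (φ : Pure G) {i j : ι} (h : i ≠ j) : 0 < D φ i j :=
  (ST_isTree G).connected.pos_dist_of_ne (pt_ne φ h)

theorem D_mul (φ ψ : Pure G) {i j : ι} {y y' : CoprodI G}
    (hi : (fc G i).map ψ.1.toMonoidHom = cj y (fc G i))
    (hj : (fc G j).map ψ.1.toMonoidHom = cj y' (fc G j)) :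
    D (φ * ψ) i j = (ST G).dist (pt φ i) (φ.1 (y⁻¹ * y') • pt φ j) := by
  unfold D
  rw [pt_mul φ ψ hi, pt_mul φ ψ hj, map_mul, mul_smul,
    ← dist_smul (ST_isTree G) (ST_adj_smul (G := G)) (φ.1 y) (pt φ i), map_inv, smul_inv_smul]

theorem D_inn (φ : Pure G) (n : CoprodI G) (i j : ι) : D (inn G n * φ) i j = D φ i j := by
  unfold D
  rw [pt_inn_mul, pt_inn_mul]
  exact dist_smul (ST_isTree G) (ST_adj_smul (G := G)) n _ _

/-- the directions agree -/
def Strict (φ : Pure G) (i j k : ι) : Prop :=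
  ∃ e, Nx (ST G) (pt φ i) (pt φ j) e ∧ Nx (ST G) (pt φ i) (pt φ k) e

theorem not_strict (φ : Pure G) {i j k : ι} (hij : i ≠ j) (hik : i ≠ k)
    (h : ¬ Strict φ i j k) : D φ j k = D φ i j + D φ i k := by
  have hT := ST_isTree G
  obtain ⟨e, he⟩ := exists_nx hT (pt_ne φ hij)
  obtain ⟨e', he'⟩ := exists_nx hT (pt_ne φ hik)
  have hne : e ≠ e' := fun h1 => h ⟨e, he, h1 ▸ he'⟩
  have h1 := (concat hT he he' hne).1
  unfold D
  rw [h1, dist_comm (u := pt φ j)]

/-- the vertex `k` can be moved so that the directions agree -/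
theorem exists_move (φ : Pure G) {i j k : ι} (hij : i ≠ j) (hik : i ≠ k) :
    ∃ g : G i, (ST G).dist (pt φ j) (φ.1 (CoprodI.of g) • pt φ k) < D φ i j + D φ i k := by
  have hT := ST_isTree G
  obtain ⟨e, he⟩ := exists_nx hT (pt_ne φ hij)
  obtain ⟨e', he'⟩ := exists_nx hT (pt_ne φ hik)
  obtain ⟨h, h1, h2⟩ := transitive φ i he'.1 he.1
  obtain ⟨g, rfl⟩ := fix_pt' φ i h1
  refine ⟨g, ?_⟩
  have h3 := nx_smul hT (ST_adj_smul (G := G)) (φ.1 (CoprodI.of g)) he'
  rw [h1, h2] at h3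
  have h4 := dist_lt hT he h3
  have h5 : (ST G).dist (pt φ i) (φ.1 (CoprodI.of g) • pt φ k) = D φ i k := by
    have h6 := dist_smul hT (ST_adj_smul (G := G)) (φ.1 (CoprodI.of g)) (pt φ i) (pt φ k)
    rw [h1] at h6
    exact h6
  rw [h5, dist_comm (u := pt φ j) (v := pt φ i)] at h4
  exact h4

/-- the other positions are far -/
theorem move_far (φ : Pure G) {i j k : ι} (hs : Strict φ i j k) {h : CoprodI G}
    (h1 : h • pt φ i = pt φ i) (hne : h ≠ 1) :
    (ST G).dist (pt φ j) (h • pt φ k) = D φ i j + D φ i k := by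
  have hT := ST_isTree G
  obtain ⟨e, he, he'⟩ := hs
  have h3 := nx_smul hT (ST_adj_smul (G := G)) h he'
  rw [h1] at h3
  have h4 : e ≠ h • e := fun h5 => hne (eq_one_of_two he.1.ne h1 h5.symm)
  rw [(concat hT he h3 h4).1]
  have h5 : (ST G).dist (pt φ i) (h • pt φ k) = D φ i k := by
    have h6 := dist_smul hT (ST_adj_smul (G := G)) h (pt φ i) (pt φ k)
    rw [h1] at h6
    exact h6
  rw [h5, dist_comm (u := pt φ j)]
  rfl

theorem strict_lt (φ : Pure G) {i j k : ι} (hs : Strict φ i j k) :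
    D φ j k < D φ i j + D φ i k := by
  obtain ⟨e, he, he'⟩ := hs
  have h4 := dist_lt (ST_isTree G) he he'
  unfold D
  rw [dist_comm (u := pt φ i) (v := pt φ j)]
  exact h4

end

section

variable {G : Fin 3 → Type} [∀ i, Group (G i)]

/-- the size of an automorphism -/
noncomputable def size (φ : Pure G) : ℕ := D φ 0 1 + D φ 1 2 + D φ 0 2

theorem size_eq (φ : Pure G) (i j k : Fin 3) (hij : i ≠ j) (hik : i ≠ k) (hjk : j ≠ k) :
    size φ = D φ i j + D φ i k + D φ j k := by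
  have h1 := D_comm φ 1 0
  have h2 := D_comm φ 2 0
  have h3 := D_comm φ 2 1
  unfold size
  fin_cases i <;> fin_cases j <;> fin_cases k <;> simp at hij hik hjk ⊢ <;> omega

theorem third : ∀ i j : Fin 3, i ≠ j → ∃ k, i ≠ k ∧ j ≠ k := by decide

theorem others : ∀ i : Fin 3, ∃ j k, i ≠ j ∧ i ≠ k ∧ j ≠ k := by decide

theorem cover : ∀ i j k l : Fin 3, i ≠ j → i ≠ k → j ≠ k → l = i ∨ l = j ∨ l = k := by decide

variable [∀ i, Nontrivial (G i)]

theorem size_mul (φ ψ : Pure G) {i j k : Fin 3} (hij : i ≠ j) (hik : i ≠ k) (hjk : j ≠ k)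
    {y y' : CoprodI G} (hψ : (fc G i).map ψ.1.toMonoidHom = fc G i)
    (hy : y ∈ fc G i) (hy' : y' ∈ fc G i)
    (hj : (fc G j).map ψ.1.toMonoidHom = cj y (fc G j))
    (hk : (fc G k).map ψ.1.toMonoidHom = cj y' (fc G k)) :
    size (φ * ψ) = D φ i j + D φ i k +
      (ST G).dist (pt φ j) (φ.1 (y⁻¹ * y') • pt φ k) := by
  rw [size_eq _ i j k hij hik hjk, D_mul φ ψ hj hk]
  have hi : (fc G i).map ψ.1.toMonoidHom = cj 1 (fc G i) := by rw [hψ, cj_one]
  have key : ∀ (l : Fin 3) (z : CoprodI G), z ∈ fc G i →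
      (ST G).dist (pt φ i) (φ.1 z • pt φ l) = D φ i l := by
    rintro l _ ⟨g, rfl⟩
    have h6 := dist_smul (ST_isTree G) (ST_adj_smul (G := G)) (φ.1 (CoprodI.of g)) (pt φ i)
      (pt φ l)
    rw [fix_pt] at h6
    exact h6
  rw [D_mul φ ψ hi hj, D_mul φ ψ hi hk, inv_one, one_mul, one_mul, key j y hy, key k y' hy']

theorem size_inn (φ : Pure G) (n : CoprodI G) : size (inn G n * φ) = size φ := by
  unfold size
  rw [D_inn, D_inn, D_inn]

/-- the size of an outer automorphism -/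
noncomputable def sz (q : POut G) : ℕ := Quotient.liftOn' q size (by
  intro φ ψ h
  rw [QuotientGroup.leftRel_apply] at h
  obtain ⟨n, hn⟩ := h
  have h1 : ψ = φ * inn G n := by rw [hn]; group
  rw [h1, inn_conj, size_inn])

theorem sz_mk (φ : Pure G) : sz (φ : POut G) = size φ := rfl

variable (G)

/-- the vertex groups in the group of outer automorphisms -/
abbrev OSt (i : Fin 3) : Subgroup (POut G) := (St G i).map (QuotientGroup.mk' _)

/-- the edge group -/
abbrev OEd : Subgroup (POut G) := (Ed G).map (QuotientGroup.mk' _)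

variable {G}

theorem Ed_le_St (i : Fin 3) : Ed G ≤ St G i := fun ψ h j => ⟨1, one_mem _, by
  rw [cj_one]; exact h j⟩

/-- if the size cannot be decreased the triple is strict -/
theorem strict_of_min (φ : Pure G) {i j k : Fin 3} (hij : i ≠ j) (hik : i ≠ k) (hjk : j ≠ k)
    (h : ∀ ψ ∈ St G i, size φ ≤ size (φ * ψ)) : Strict φ i j k := by
  by_contra hs
  have h1 := not_strict φ hij hik hs
  obtain ⟨g, hg⟩ := exists_move φ hij hik
  have h2 : (⟨pk hik g⁻¹, pk_mem hik g⁻¹⟩ : Pure G) ∈ St G i := by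
    intro l
    by_cases hl : l = k
    · subst hl
      exact ⟨_, ⟨_, rfl⟩, pk_fc_same hik g⁻¹⟩
    · exact ⟨1, one_mem _, by rw [cj_one]; exact pk_fc_ne hik g⁻¹ hl⟩
  have h3 := h _ h2
  rw [size_mul φ ⟨pk hik g⁻¹, pk_mem hik g⁻¹⟩ hij hik hjk (pk_fc_ne hik g⁻¹ hik)
    (one_mem _) ⟨_, rfl⟩ (by rw [cj_one]; exact pk_fc_ne hik g⁻¹ hjk) (pk_fc_same hik g⁻¹),
    size_eq φ i j k hij hik hjk, inv_one, one_mul, inv_inv] at h3
  omega

/-- a decrease of the size shows that the triple is degenerate -/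
theorem degenerate (φ ψ : Pure G) {i j k : Fin 3} (hij : i ≠ j) (hik : i ≠ k) (hjk : j ≠ k)
    (hψ : ψ ∈ St G i) (h : size (φ * ψ) < size φ) : D φ j k = D φ i j + D φ i k := by
  apply not_strict φ hij hik
  intro hs
  obtain ⟨z, hz, hz'⟩ := hψ i
  rw [cj_self hz] at hz'
  obtain ⟨y, hy, hj⟩ := hψ j
  obtain ⟨y', hy', hk⟩ := hψ k
  rw [size_mul φ ψ hij hik hjk hz' hy hy' hj hk, size_eq φ i j k hij hik hjk] at h
  obtain ⟨g, hg⟩ : y⁻¹ * y' ∈ fc G i := mul_mem (inv_mem hy) hy'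
  by_cases h1 : φ.1 (y⁻¹ * y') = 1
  · rw [h1, one_smul] at h
    have : (ST G).dist (pt φ j) (pt φ k) = D φ j k := rfl
    omega
  · rw [move_far φ hs (by rw [← hg]; exact fix_pt φ i g) h1] at h
    have := strict_lt φ hs
    omega

theorem uniq_step (φ ψ : Pure G) {i j k : Fin 3} (hij : i ≠ j) (hik : i ≠ k) (hjk : j ≠ k)
    (hψ : ψ ∈ St G i) (hmin : ∀ ψ ∈ St G i, size φ ≤ size (φ * ψ))
    (h : size (φ * ψ) ≤ size φ) : ∃ n : CoprodI G, inn G n * ψ ∈ Ed G := by
  have hs := strict_of_min φ hij hik hjk hmin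
  obtain ⟨z, hz, hz'⟩ := hψ i
  rw [cj_self hz] at hz'
  obtain ⟨y, hy, hj⟩ := hψ j
  obtain ⟨y', hy', hk⟩ := hψ k
  rw [size_mul φ ψ hij hik hjk hz' hy hy' hj hk, size_eq φ i j k hij hik hjk] at h
  obtain ⟨g, hg⟩ : y⁻¹ * y' ∈ fc G i := mul_mem (inv_mem hy) hy'
  have h1 : φ.1 (y⁻¹ * y') = 1 := by
    by_contra h1
    rw [move_far φ hs (by rw [← hg]; exact fix_pt φ i g) h1] at h
    have := strict_lt φ hs
    omega
  have h2 : y = y' := by
    have h3 := φ.1.injective (h1.trans (map_one φ.1).symm)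
    exact inv_mul_eq_one.1 h3
  subst h2
  refine ⟨y⁻¹, ?_⟩
  have key : ∀ l, (fc G l).map ψ.1.toMonoidHom = cj y (fc G l) →
      (fc G l).map (inn G y⁻¹ * ψ).1.toMonoidHom = fc G l := by
    intro l hl
    change (fc G l).map (MulAut.conj y⁻¹ * ψ.1).toMonoidHom = _
    rw [map_mul_aut, hl]
    change cj y⁻¹ (cj y (fc G l)) = _
    rw [← cj_mul, inv_mul_cancel, cj_one]
  intro l
  rcases cover i j k l hij hik hjk with rfl | rfl | rfl
  · exact key _ (by rw [hz', cj_self hy])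
  · exact key _ hj
  · exact key _ hk

theorem mem_OEd {ψ : Pure G} {n : CoprodI G} (h : inn G n * ψ ∈ Ed G) : (ψ : POut G) ∈ OEd G := by
  refine ⟨inn G n * ψ, h, ?_⟩
  change ((inn G n * ψ : Pure G) : POut G) = ψ
  rw [QuotientGroup.eq]
  refine ⟨ψ.1⁻¹ n⁻¹, ?_⟩
  have h1 := inn_conj ψ (ψ.1⁻¹ n⁻¹)
  rw [MulAut.apply_inv_self] at h1
  rw [mul_inv_rev, mul_assoc, ← map_inv, ← h1, inv_mul_cancel_left]

theorem mem_OSt {q : POut G} {i : Fin 3} (h : q ∈ OSt G i) : ∃ ψ ∈ St G i, (ψ : POut G) = q := h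

/-- **the group of outer automorphisms acts on a tree** -/
theorem ocrit : Crit (OEd G) (OSt G) (sz (G := G)) where
  le := fun i => Subgroup.map_mono (Ed_le_St i)
  inv := by
    rintro g _ ⟨ψ, hψ, rfl⟩
    induction g using QuotientGroup.induction_on with
    | H φ =>
      change size (φ * ψ) = size φ
      have h1 : ∀ l, pt (φ * ψ) l = pt φ l := by
        intro l
        have h2 := pt_mul φ ψ (i := l) (y := 1) (by rw [cj_one]; exact hψ l)
        rw [h2, map_one, one_smul]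
      unfold size D
      rw [h1, h1, h1]
  uniq := by
    rintro i g _ ⟨ψ, hψ, rfl⟩ hmin hle
    induction g using QuotientGroup.induction_on with
    | H φ =>
      obtain ⟨j, k, hij, hik, hjk⟩ := others i
      obtain ⟨n, hn⟩ := uniq_step φ ψ hij hik hjk hψ
        (fun ψ' hψ' => hmin _ ⟨ψ', hψ', rfl⟩) hle
      exact mem_OEd hn
  one := by
    intro g i i' h1 h2
    induction g using QuotientGroup.induction_on with
    | H φ =>
      obtain ⟨_, ⟨ψ, hψ, rfl⟩, h1⟩ := h1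
      obtain ⟨_, ⟨ψ', hψ', rfl⟩, h2⟩ := h2
      by_contra hne
      obtain ⟨k, hk, hk'⟩ := third i i' hne
      have h3 := degenerate φ ψ hne hk hk' hψ h1
      have h4 := degenerate φ ψ' (Ne.symm hne) hk' hk hψ' h2
      have h5 := D_comm φ i i'
      have h6 := D_pos φ hne
      omega
  base := by
    intro g hg
    induction g using QuotientGroup.induction_on with
    | H φ =>
      have hT := ST_isTree G
      have hstrict : ∀ i j k : Fin 3, i ≠ j → i ≠ k → j ≠ k → Strict φ i j k := by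
        intro i j k hij hik hjk
        exact strict_of_min φ hij hik hjk (fun ψ hψ => hg i _ ⟨ψ, hψ, rfl⟩)
      -- the centre
      let f : SV G → ℕ := fun x => (ST G).dist x (pt φ 0) + (ST G).dist x (pt φ 1) +
        (ST G).dist x (pt φ 2)
      have hf : ∀ x (i j k : Fin 3), i ≠ j → i ≠ k → j ≠ k → f x = (ST G).dist x (pt φ i) +
          (ST G).dist x (pt φ j) + (ST G).dist x (pt φ k) := by
        intro x i j k hij hik hjk
        change (ST G).dist x (pt φ 0) + (ST G).dist x (pt φ 1) + (ST G).dist x (pt φ 2) = _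
        fin_cases i <;> fin_cases j <;> fin_cases k <;> simp at hij hik hjk ⊢ <;> omega
      obtain ⟨s, _, hs⟩ := (measure f).wf.has_min Set.univ ⟨pt φ 0, trivial⟩
      have hs' : ∀ x, f s ≤ f x := fun x => not_lt.1 (hs x trivial)
      have hA : ∀ i, s ≠ pt φ i := by
        rintro i rfl
        obtain ⟨j, k, hij, hik, hjk⟩ := others i
        obtain ⟨e, he, he'⟩ := hstrict i j k hij hik hjk
        have h1 := hs' e
        rw [hf _ i j k hij hik hjk, hf _ i j k hij hik hjk, SimpleGraph.dist_self] at h1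
        have h2 := he.2
        have h3 := he'.2
        have h4 : (ST G).dist e (pt φ i) = 1 := SimpleGraph.dist_eq_one_iff_adj.2 he.1.symm
        omega
      have hB : ∀ i j, i ≠ j → ∀ z, Nx (ST G) s (pt φ i) z → ¬ Nx (ST G) s (pt φ j) z := by
        intro i j hij z hz hz'
        obtain ⟨k, hik, hjk⟩ := third i j hij
        have h1 := hs' z
        rw [hf _ i j k hij hik hjk, hf _ i j k hij hik hjk] at h1
        have h2 := hz.2
        have h3 := hz'.2
        have h4 := hT.dist_eq_dist_add_one_of_adj (pt φ k) hz.1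
        rw [dist_comm (u := pt φ k), dist_comm (u := pt φ k)] at h4
        omega
      obtain ⟨n, hn⟩ := centre φ (s := s) hA hB
      refine mem_OEd (n := n⁻¹) ?_
      intro l
      obtain ⟨x, hx, hp⟩ := pt_spec (inn G n⁻¹ * φ) l
      rw [hx]
      rw [pt_inn_mul, hn, cg_smul', inv_mul_cancel] at hp
      rw [← cj_of_fv hp, cj_one]

end

end Q171.OF
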